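import Mathlib

/-!
The binary Champernowne sequence: digits and words.
-/

set_option autoImplicit false

namespace Pool.Agent.Q47.Champ

open Finset

/-- the concatenation of the binary expansions of `1, 2, ..., n` -/
def chDigits (n : ℕ) : List ℕ := (List.range n).flatMap (fun m => (Nat.digits 2 (m + 1)).reverse)

/-- the `i`-th digit (counted from `0`) of `1 10 11 100 101 ...` -/
def chDigit (i : ℕ) : ℕ := (chDigits (i + 1)).getD i 0

/-- the length of the binary expansion of `m` -/
def len (m : ℕ) : ℕ := (Nat.digits 2 m).length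

/-- the index at which the expansion of `m` starts -/
def S (m : ℕ) : ℕ := ∑ i ∈ range m, len i

theorem len_zero : len 0 = 0 := by simp [len]

theorem len_pos {m : ℕ} (hm : m ≠ 0) : 1 ≤ len m := by
  unfold len
  rw [Nat.digits_len 2 m (by norm_num) hm]
  omega

theorem len_eq {k m : ℕ} (hk : 1 ≤ k) (h1 : 2 ^ (k - 1) ≤ m) (h2 : m < 2 ^ k) : len m = k := by
  have hm : m ≠ 0 := by
    have : 0 < 2 ^ (k - 1) := by positivity
    omega
  unfold len
  rw [Nat.digits_len 2 m (by norm_num) hm]
  have : Nat.log 2 m = k - 1 := by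
    rw [Nat.log_eq_iff (Or.inr ⟨by norm_num, hm⟩)]
    refine ⟨h1, ?_⟩
    rwa [Nat.sub_add_cancel hk]
  omega

theorem S_succ (m : ℕ) : S (m + 1) = S m + len m := by
  unfold S
  rw [sum_range_succ]

theorem S_one : S 1 = 0 := by simp [S, len_zero]

theorem chDigits_succ (n : ℕ) : chDigits (n + 1) = chDigits n ++ (Nat.digits 2 (n + 1)).reverse := by
  unfold chDigits
  rw [List.range_succ, List.flatMap_append]
  simp

theorem length_chDigits (n : ℕ) : (chDigits n).length = S (n + 1) := by
  induction n with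
  | zero => simp [chDigits, S_one]
  | succ n ih =>
    rw [chDigits_succ, List.length_append, ih, S_succ (n + 1), List.length_reverse]
    rfl

theorem le_S (n : ℕ) : n ≤ S (n + 1) := by
  induction n with
  | zero => omega
  | succ n ih =>
    rw [S_succ]
    have := len_pos (m := n + 1) (by omega)
    omega

theorem chDigits_prefix {n n' : ℕ} (h : n ≤ n') : ∃ t, chDigits n' = chDigits n ++ t := by
  induction n', h using Nat.le_induction with
  | base => exact ⟨[], by simp⟩
  | succ k _ ih =>
    obtain ⟨t, ht⟩ := ih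
    exact ⟨t ++ (Nat.digits 2 (k + 1)).reverse, by rw [chDigits_succ, ht, List.append_assoc]⟩

theorem chDigit_eq {n i : ℕ} (h : i < (chDigits n).length) : chDigit i = (chDigits n).getD i 0 := by
  unfold chDigit
  have h1 : i < (chDigits (i + 1)).length := by
    rw [length_chDigits]
    have := le_S (i + 1)
    omega
  rcases le_total n (i + 1) with hn | hn
  · obtain ⟨t, ht⟩ := chDigits_prefix hn
    rw [ht, List.getD_append _ _ _ _ h]
  · obtain ⟨t, ht⟩ := chDigits_prefix hn
    rw [ht, List.getD_append _ _ _ _ h1]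

/-- the digits of `m` in the sequence -/
theorem chDigit_S {m j : ℕ} (hm : m ≠ 0) (hj : j < len m) :
    chDigit (S m + j) = m / 2 ^ (len m - 1 - j) % 2 := by
  obtain ⟨n, rfl⟩ : ∃ n, m = n + 1 := ⟨m - 1, by omega⟩
  have hl : (chDigits (n + 1)).length = S (n + 1) + len (n + 1) := by
    rw [length_chDigits, S_succ]
  rw [chDigit_eq (n := n + 1) (by omega), chDigits_succ]
  have hl' := length_chDigits n
  rw [List.getD_append_right _ _ _ _ (by omega)]
  rw [hl']
  have e1 : S (n + 1) + j - S (n + 1) = j := by omega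
  rw [e1]
  have hj' : j < (Nat.digits 2 (n + 1)).length := hj
  rw [List.getD_eq_getElem _ _ (by rw [List.length_reverse]; exact hj')]
  rw [List.getElem_reverse]
  rw [← Nat.getD_digits (n + 1) (len (n + 1) - 1 - j) (by norm_num : 2 ≤ 2)]
  rw [List.getD_eq_getElem _ _ (by unfold len; omega)]
  rfl

theorem chDigit_le_one (i : ℕ) : chDigit i ≤ 1 := by
  unfold chDigit
  have h : ∀ x ∈ chDigits (i + 1), x < 2 := by
    intro x hx
    unfold chDigits at hx
    rw [List.mem_flatMap] at hx
    obtain ⟨m, _, hm⟩ := hx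
    rw [List.mem_reverse] at hm
    exact Nat.digits_lt_base (by norm_num) hm
  rcases lt_or_ge i (chDigits (i + 1)).length with h1 | h1
  · rw [List.getD_eq_getElem _ _ h1]
    have := h _ (List.getElem_mem h1)
    omega
  · rw [List.getD_eq_default _ _ h1]
    omega

/-- the value of the word of length `L` at the index `i` -/
def W (L i : ℕ) : ℕ := ∑ t ∈ range L, chDigit (i + t) * 2 ^ (L - 1 - t)

theorem W_zero (i : ℕ) : W 0 i = 0 := by simp [W]

theorem W_succ (L i : ℕ) : W (L + 1) i = 2 * W L i + chDigit (i + L) := by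
  unfold W
  rw [sum_range_succ, mul_sum]
  congr 1
  · apply sum_congr rfl
    intro t ht
    have := mem_range.1 ht
    have e : L + 1 - 1 - t = (L - 1 - t) + 1 := by omega
    rw [e, pow_succ]
    ring
  · simp

theorem W_add (L₁ L₂ i : ℕ) : W (L₁ + L₂) i = W L₁ i * 2 ^ L₂ + W L₂ (i + L₁) := by
  induction L₂ with
  | zero => simp [W_zero]
  | succ k ih =>
    rw [← add_assoc, W_succ, ih, W_succ, pow_succ, add_assoc i L₁ k]
    ring

theorem W_lt (L i : ℕ) : W L i < 2 ^ L := by
  induction L with
  | zero => simp [W_zero]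
  | succ k ih =>
    rw [W_succ, pow_succ]
    have := chDigit_le_one (i + k)
    omega

/-- words inside an expansion -/
theorem W_interior {m : ℕ} (hm : m ≠ 0) : ∀ (L j : ℕ), j + L ≤ len m →
    W L (S m + j) = m / 2 ^ (len m - j - L) % 2 ^ L := by
  intro L
  induction L with
  | zero => intro j _; simp [W_zero, Nat.mod_one]
  | succ L ih =>
    intro j hj
    rw [W_succ, ih j (by omega), add_assoc, chDigit_S hm (by omega)]
    have e1 : len m - j - L = (len m - j - (L + 1)) + 1 := by omega
    have e2 : len m - 1 - (j + L) = len m - j - (L + 1) := by omega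
    rw [e1, e2]
    obtain ⟨t, ht⟩ : ∃ t, t = len m - j - (L + 1) := ⟨_, rfl⟩
    rw [← ht]
    rw [pow_succ 2 t, ← Nat.div_div_eq_div_mul]
    obtain ⟨q, hq⟩ : ∃ q, q = m / 2 ^ t := ⟨_, rfl⟩
    rw [← hq, pow_succ' 2 L, Nat.mod_mul]
    ring

/-- words crossing the boundary of two expansions -/
theorem W_crossing {m k a b : ℕ} (hk : 1 ≤ k) (h1 : 2 ^ (k - 1) ≤ m) (h2 : m + 1 < 2 ^ k)
    (ha : a ≤ k) (hb : b ≤ k) :
    W (a + b) (S m + (k - a)) = m % 2 ^ a * 2 ^ b + (m + 1) / 2 ^ (k - b) := by
  have hm : m ≠ 0 := by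
    have : 0 < 2 ^ (k - 1) := by positivity
    omega
  have hl : len m = k := len_eq hk h1 (by omega)
  have hl' : len (m + 1) = k := len_eq hk (by omega) h2
  rw [W_add, W_interior hm _ _ (by omega)]
  have e1 : S m + (k - a) + a = S (m + 1) + 0 := by
    rw [S_succ, hl]; omega
  rw [e1, W_interior (by omega) _ _ (by omega), hl, hl']
  have e2 : k - (k - a) - a = 0 := by omega
  have e3 : k - 0 - b = k - b := by omega
  rw [e2, e3, pow_zero, Nat.div_one]
  congr 1
  apply Nat.mod_eq_of_lt
  rw [Nat.div_lt_iff_lt_mul (by positivity), ← pow_add]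
  have : b + (k - b) = k := by omega
  rw [this]
  exact h2

end Pool.Agent.Q47.Champ
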