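import Pool.Agent.Q47.Champ1

/-!
Periodic sums, counts of words, near orthogonality.
-/

set_option autoImplicit false

namespace Pool.Agent.Q47.Champ

open Finset

/-- a sum over a full period does not depend on the starting point -/
theorem period_shift {g : ℕ → ℝ} {P : ℕ} (hg : ∀ n, g (n + P) = g n) (A : ℕ) :
    ∑ m ∈ range P, g (A + m) = ∑ m ∈ range P, g m := by
  induction A with
  | zero => simp
  | succ A ih =>
    rw [← ih]
    have h1 := Finset.sum_range_succ (fun m => g (A + m)) P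
    have h2 := Finset.sum_range_succ' (fun m => g (A + m)) P
    rw [h1] at h2
    have h3 : ∑ m ∈ range P, g (A + 1 + m) = ∑ m ∈ range P, g (A + (m + 1)) := by
      apply sum_congr rfl
      intro m _
      congr 1
      omega
    rw [h3]
    have h4 := hg A
    simp only [add_zero] at h2
    linarith

theorem period_mul {g : ℕ → ℝ} {P : ℕ} (hg : ∀ n, g (n + P) = g n) (A q : ℕ) :
    ∑ m ∈ range (q * P), g (A + m) = q * ∑ m ∈ range P, g m := by
  induction q with
  | zero => simp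
  | succ q ih =>
    rw [Nat.succ_mul, Finset.sum_range_add, ih]
    have h := period_shift hg (A + q * P)
    simp only [add_assoc] at h ⊢
    rw [h]
    push_cast
    ring

theorem periodic_sum {g : ℕ → ℝ} {P : ℕ} (hP : 0 < P) (hg : ∀ n, g (n + P) = g n)
    (h0 : ∀ n, 0 ≤ g n) (A B : ℕ) :
    |∑ m ∈ Ico A B, g m - ((B - A : ℕ) : ℝ) * (∑ m ∈ range P, g m) / P|
      ≤ ∑ m ∈ range P, g m := by
  obtain ⟨T, hT⟩ : ∃ T, T = ∑ m ∈ range P, g m := ⟨_, rfl⟩
  have hT0 : 0 ≤ T := by rw [hT]; exact sum_nonneg (fun _ _ => h0 _)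
  rw [Finset.sum_Ico_eq_sum_range]
  obtain ⟨n, hn⟩ : ∃ n, n = B - A := ⟨_, rfl⟩
  rw [← hn, ← hT]
  have hdm : n = n / P * P + n % P := by rw [mul_comm]; exact (Nat.div_add_mod n P).symm
  obtain ⟨q, hq⟩ : ∃ q, q = n / P := ⟨_, rfl⟩
  obtain ⟨r, hr⟩ : ∃ r, r = n % P := ⟨_, rfl⟩
  have hrP : r < P := by rw [hr]; exact Nat.mod_lt _ hP
  rw [← hq, ← hr] at hdm
  have h1 : ∑ m ∈ range n, g (A + m) = q * T + ∑ m ∈ range r, g (A + q * P + m) := by
    rw [hdm, Finset.sum_range_add, period_mul hg, hT]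
    simp only [add_assoc]
  have h2 : ∑ m ∈ range r, g (A + q * P + m) ≤ T := by
    rw [hT, ← period_shift hg (A + q * P)]
    apply sum_le_sum_of_subset_of_nonneg
    · intro x hx
      rw [mem_range] at hx ⊢
      omega
    · intro _ _ _
      exact h0 _
  have h3 : 0 ≤ ∑ m ∈ range r, g (A + q * P + m) := sum_nonneg (fun _ _ => h0 _)
  have hP' : (0 : ℝ) < P := by exact_mod_cast hP
  have h4 : (n : ℝ) * T / P = q * T + r * T / P := by
    rw [hdm]
    push_cast
    field_simp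
  have h5 : (r : ℝ) * T / P ≤ T := by
    rw [div_le_iff₀ hP']
    have : (r : ℝ) ≤ P := by exact_mod_cast hrP.le
    nlinarith
  have h6 : 0 ≤ (r : ℝ) * T / P := by positivity
  rw [h1, h4, abs_le]
  constructor <;> linarith

/-- sums of functions of a residue -/
theorem sum_mod {P Q : ℕ} (F : ℕ → ℝ) (hP : 0 < P) :
    ∑ w ∈ range (Q * P), F (w % P) = Q * ∑ v ∈ range P, F v := by
  have h := period_mul (g := fun w => F (w % P)) (P := P) (by intro n; simp) 0 Q
  simp only [zero_add] at h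
  rw [h]
  congr 1
  apply sum_congr rfl
  intro v hv
  rw [Nat.mod_eq_of_lt (mem_range.1 hv)]

/-- sums of functions of a quotient -/
theorem sum_div {P Q : ℕ} (F : ℕ → ℝ) (hP : 0 < P) :
    ∑ m ∈ range (Q * P), F (m / P) = P * ∑ v ∈ range Q, F v := by
  induction Q with
  | zero => simp
  | succ Q ih =>
    rw [Nat.succ_mul, Finset.sum_range_add, ih, sum_range_succ, mul_add]
    congr 1
    rw [sum_congr rfl (g := fun _ => F Q)]
    · simp
    · intro x hx
      have := mem_range.1 hx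
      congr 1
      rw [mul_comm, Nat.mul_add_div hP, Nat.div_eq_of_lt this, add_zero]

/-- the words inside the expansions of the same length are evenly distributed -/
theorem interior_count (t L w A B : ℕ) (hw : w < 2 ^ L) :
    |∑ m ∈ Ico A B, ((if m / 2 ^ t % 2 ^ L = w then (1 : ℝ) else 0) - 1 / 2 ^ L)| ≤ 2 ^ t := by
  have hP : 0 < 2 ^ L * 2 ^ t := by positivity
  have hg : ∀ n, (if (n + 2 ^ L * 2 ^ t) / 2 ^ t % 2 ^ L = w then (1 : ℝ) else 0)
      = if n / 2 ^ t % 2 ^ L = w then (1 : ℝ) else 0 := by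
    intro n
    rw [Nat.add_mul_div_right _ _ (by positivity), Nat.add_mod_right]
  have h := periodic_sum (g := fun m => if m / 2 ^ t % 2 ^ L = w then (1 : ℝ) else 0) hP hg
    (by intro n; positivity) A B
  have hT : ∑ m ∈ range (2 ^ L * 2 ^ t), (if m / 2 ^ t % 2 ^ L = w then (1 : ℝ) else 0) = 2 ^ t := by
    rw [sum_div (fun v => if v % 2 ^ L = w then (1 : ℝ) else 0) (by positivity : 0 < 2 ^ t)]
    rw [sum_congr rfl (g := fun v => if v = w then (1 : ℝ) else 0)]
    · rw [sum_ite_eq' (range (2 ^ L)) w (fun _ => (1 : ℝ))]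
      rw [if_pos (mem_range.2 hw)]
      push_cast
      ring
    · intro v hv
      rw [Nat.mod_eq_of_lt (mem_range.1 hv)]
  rw [hT] at h
  rw [sum_sub_distrib]
  have e : ∑ m ∈ Ico A B, (1 : ℝ) / 2 ^ L = ((B - A : ℕ) : ℝ) * 2 ^ t / ((2 ^ L * 2 ^ t : ℕ) : ℝ) := by
    rw [sum_const, Nat.card_Ico, nsmul_eq_mul]
    push_cast
    field_simp
  rw [e]
  exact h

/-- the number of `m ∈ [A, B)` with `m / 2^c = v` -/
def nu (A B c v : ℕ) : ℝ := ∑ m ∈ Ico A B, if m / 2 ^ c = v then (1 : ℝ) else 0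

theorem nu_nonneg (A B c v : ℕ) : 0 ≤ nu A B c v := by
  unfold nu
  exact sum_nonneg (fun _ _ => by positivity)

theorem sum_nu {A B c b : ℕ} (hB : B ≤ 2 ^ b * 2 ^ c) (F : ℕ → ℝ) :
    ∑ v ∈ range (2 ^ b), F v * nu A B c v = ∑ m ∈ Ico A B, F (m / 2 ^ c) := by
  unfold nu
  simp_rw [mul_sum]
  rw [sum_comm]
  apply sum_congr rfl
  intro m hm
  rw [mem_Ico] at hm
  simp_rw [mul_ite, mul_one, mul_zero]
  rw [sum_ite_eq (range (2 ^ b)) (m / 2 ^ c) (fun v => F v), if_pos]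
  rw [mem_range, Nat.div_lt_iff_lt_mul (by positivity)]
  omega

theorem sum_nu_one {A B c b : ℕ} (hB : B ≤ 2 ^ b * 2 ^ c) :
    ∑ v ∈ range (2 ^ b), nu A B c v = ((B - A : ℕ) : ℝ) := by
  have h := sum_nu (A := A) hB (fun _ => 1)
  simpa using h

/-- words crossing a boundary -/
theorem crossing_count (a b c w A B : ℕ) (hB : B + 1 ≤ 2 ^ b * 2 ^ c) (hwL : w < 2 ^ (a + b)) :
    |∑ m ∈ Ico A B, (if m % 2 ^ a * 2 ^ b + (m + 1) / 2 ^ c = w then (1 : ℝ) else 0)
      - nu (A + 1) (B + 1) c (w % 2 ^ b) / 2 ^ a| ≤ 1 := by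
  obtain ⟨v, hv⟩ : ∃ v, v = w % 2 ^ b := ⟨_, rfl⟩
  obtain ⟨u, hu⟩ : ∃ u, u = w / 2 ^ b := ⟨_, rfl⟩
  have hw : u * 2 ^ b + v = w := by rw [hu, hv, mul_comm]; exact Nat.div_add_mod _ _
  have hvb : v < 2 ^ b := by rw [hv]; exact Nat.mod_lt _ (by positivity)
  have e1 : ∑ m ∈ Ico A B, (if m % 2 ^ a * 2 ^ b + (m + 1) / 2 ^ c = w then (1 : ℝ) else 0)
      = ∑ m ∈ Ico (max A (v * 2 ^ c - 1)) (min B ((v + 1) * 2 ^ c - 1)),
        if m % 2 ^ a = u then (1 : ℝ) else 0 := by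
    rw [← sum_filter, ← sum_filter]
    congr 1
    ext m
    simp only [mem_filter, mem_Ico, sup_le_iff, lt_inf_iff]
    constructor
    · rintro ⟨⟨hA, hB'⟩, h⟩
      have hlt : (m + 1) / 2 ^ c < 2 ^ b := by
        rw [Nat.div_lt_iff_lt_mul (by positivity)]; omega
      have h1 : m % 2 ^ a = u ∧ (m + 1) / 2 ^ c = v := by
        rw [← hw] at h
        have hd := congrArg (· / 2 ^ b) h
        have hm := congrArg (· % 2 ^ b) h
        rw [mul_comm, Nat.mul_add_div (by positivity), Nat.div_eq_of_lt hlt, mul_comm u,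
          Nat.mul_add_div (by positivity), Nat.div_eq_of_lt hvb] at hd
        rw [mul_comm, Nat.mul_add_mod, Nat.mod_eq_of_lt hlt, mul_comm u,
          Nat.mul_add_mod, Nat.mod_eq_of_lt hvb] at hm
        exact ⟨by omega, hm⟩
      have h2 := h1.2
      rw [Nat.div_eq_iff (by positivity)] at h2
      refine ⟨⟨⟨hA, ?_⟩, hB', ?_⟩, h1.1⟩
      · omega
      · have : (v + 1) * 2 ^ c = v * 2 ^ c + 2 ^ c := by ring
        have hc : 0 < 2 ^ c := by positivity
        omega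
    · rintro ⟨⟨⟨hA, h1⟩, hB', h2⟩, h⟩
      refine ⟨⟨hA, hB'⟩, ?_⟩
      have h3 : (m + 1) / 2 ^ c = v := by
        rw [Nat.div_eq_iff (by positivity)]
        have : (v + 1) * 2 ^ c = v * 2 ^ c + 2 ^ c := by ring
        have hc : 0 < 2 ^ c := by positivity
        omega
      rw [h, h3, hw]
  have e2 : nu (A + 1) (B + 1) c v =
      ((min B ((v + 1) * 2 ^ c - 1) - max A (v * 2 ^ c - 1) : ℕ) : ℝ) := by
    unfold nu
    rw [← Finset.sum_Ico_add' (fun m => if m / 2 ^ c = v then (1 : ℝ) else 0) A B 1]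
    rw [← sum_filter]
    rw [← Nat.card_Ico, sum_const, nsmul_eq_mul, mul_one]
    congr 2
    ext m
    simp only [mem_filter, mem_Ico, sup_le_iff, lt_inf_iff]
    rw [Nat.div_eq_iff (by positivity)]
    have : (v + 1) * 2 ^ c = v * 2 ^ c + 2 ^ c := by ring
    have hc : 0 < 2 ^ c := by positivity
    omega
  rw [← hv, e1, e2]
  have hP : 0 < 2 ^ a := by positivity
  have hg : ∀ n, (if (n + 2 ^ a) % 2 ^ a = u then (1 : ℝ) else 0)
      = if n % 2 ^ a = u then (1 : ℝ) else 0 := by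
    intro n
    rw [Nat.add_mod_right]
  have h := periodic_sum (g := fun m => if m % 2 ^ a = u then (1 : ℝ) else 0) hP hg
    (by intro n; positivity) (max A (v * 2 ^ c - 1)) (min B ((v + 1) * 2 ^ c - 1))
  have hua : u < 2 ^ a := by
    rw [hu, Nat.div_lt_iff_lt_mul (by positivity), ← pow_add]
    exact hwL
  have hT : ∑ m ∈ range (2 ^ a), (if m % 2 ^ a = u then (1 : ℝ) else 0) = 1 := by
    rw [sum_congr rfl (g := fun v => if v = u then (1 : ℝ) else 0)]
    · rw [sum_ite_eq' (range (2 ^ a)) u (fun _ => (1 : ℝ)), if_pos (mem_range.2 hua)]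
    · intro v hv
      rw [Nat.mod_eq_of_lt (mem_range.1 hv)]
  rw [hT] at h
  simpa using h

/-- the block functions -/
noncomputable def H (k L A B b w : ℕ) : ℝ :=
  (2 ^ b * nu (A + 1) (B + 1) (k - b) (w % 2 ^ b) - ((B - A : ℕ) : ℝ)) / 2 ^ L

theorem H_inner {k L A B b b' : ℕ} (hbb : b ≤ b') (hbL : b' ≤ L) (hLk : L ≤ k)
    (hB : B + 1 ≤ 2 ^ k) :
    |∑ w ∈ range (2 ^ L), H k L A B b w * H k L A B b' w|
      ≤ 2 ^ b * 2 ^ (k - b') * ((B - A : ℕ) : ℝ) / 2 ^ L := by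
  obtain ⟨I, hI⟩ : ∃ I, I = ((B - A : ℕ) : ℝ) := ⟨_, rfl⟩
  have hI0 : 0 ≤ I := by rw [hI]; positivity
  have hI' : ((B + 1 - (A + 1) : ℕ) : ℝ) = I := by rw [hI]; congr 1; omega
  -- the mean of each function
  have key : ∀ b, b ≤ L → 2 ^ b * ∑ w ∈ range (2 ^ L), nu (A + 1) (B + 1) (k - b) (w % 2 ^ b)
      = 2 ^ L * I := by
    intro b hb
    rw [mul_sum]
    have e : 2 ^ L = 2 ^ (L - b) * 2 ^ b := by rw [← pow_add]; congr 1; omega
    rw [e, sum_mod (fun v => 2 ^ b * nu (A + 1) (B + 1) (k - b) v) (by positivity), ← mul_sum,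
      sum_nu_one, hI']
    · have e' : (2 : ℝ) ^ L = 2 ^ (L - b) * 2 ^ b := by rw [← pow_add]; congr 1; omega
      rw [e']
      push_cast
      ring
    · rw [← pow_add]
      have : b + (k - b) = k := by omega
      rw [this]; exact hB
  -- the correlation
  obtain ⟨G, hG⟩ : ∃ G, G = ∑ m ∈ Ico (A + 1) (B + 1),
    nu (A + 1) (B + 1) (k - b) (m / 2 ^ (k - b') % 2 ^ b) := ⟨_, rfl⟩
  have hcor : ∑ w ∈ range (2 ^ L), nu (A + 1) (B + 1) (k - b) (w % 2 ^ b) *
      nu (A + 1) (B + 1) (k - b') (w % 2 ^ b') = 2 ^ (L - b') * G := by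
    have e : 2 ^ L = 2 ^ (L - b') * 2 ^ b' := by rw [← pow_add]; congr 1; omega
    have e2 : ∀ w, nu (A + 1) (B + 1) (k - b) (w % 2 ^ b) =
        nu (A + 1) (B + 1) (k - b) (w % 2 ^ b' % 2 ^ b) := by
      intro w
      rw [Nat.mod_mod_of_dvd _ (pow_dvd_pow 2 hbb)]
    rw [sum_congr rfl (fun w _ => by rw [e2 w])]
    rw [e, sum_mod (fun v => nu (A + 1) (B + 1) (k - b) (v % 2 ^ b) *
      nu (A + 1) (B + 1) (k - b') v) (by positivity)]
    rw [sum_nu (b := b') (c := k - b') (A := A + 1) (B := B + 1) _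
      (fun v => nu (A + 1) (B + 1) (k - b) (v % 2 ^ b)), hG]
    · push_cast
      rfl
    · rw [← pow_add]
      have : b' + (k - b') = k := by omega
      rw [this]; exact hB
  have hper : |G - I * I / 2 ^ b| ≤ 2 ^ (k - b') * I := by
    have hP : 0 < 2 ^ b * 2 ^ (k - b') := by positivity
    have hg : ∀ n, nu (A + 1) (B + 1) (k - b) ((n + 2 ^ b * 2 ^ (k - b')) / 2 ^ (k - b') % 2 ^ b)
        = nu (A + 1) (B + 1) (k - b) (n / 2 ^ (k - b') % 2 ^ b) := by
      intro n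
      rw [Nat.add_mul_div_right _ _ (by positivity), Nat.add_mod_right]
    have h := periodic_sum
      (g := fun m => nu (A + 1) (B + 1) (k - b) (m / 2 ^ (k - b') % 2 ^ b)) hP hg
      (by intro n; exact nu_nonneg _ _ _ _) (A + 1) (B + 1)
    have hT : ∑ m ∈ range (2 ^ b * 2 ^ (k - b')),
        nu (A + 1) (B + 1) (k - b) (m / 2 ^ (k - b') % 2 ^ b) = 2 ^ (k - b') * I := by
      rw [sum_div (fun v => nu (A + 1) (B + 1) (k - b) (v % 2 ^ b)) (by positivity)]
      rw [sum_congr rfl (g := fun v => nu (A + 1) (B + 1) (k - b) v)]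
      · rw [sum_nu_one, hI']
        · push_cast
          rfl
        · rw [← pow_add]
          have : b + (k - b) = k := by omega
          rw [this]; exact hB
      · intro v hv
        rw [Nat.mod_eq_of_lt (mem_range.1 hv)]
    rw [hT, ← hG, hI'] at h
    have e : I * (2 ^ (k - b') * I) / ((2 ^ b * 2 ^ (k - b') : ℕ) : ℝ) = I * I / 2 ^ b := by
      push_cast
      field_simp
    rw [e] at h
    exact h
  -- assemble
  have hexp : ∑ w ∈ range (2 ^ L), H k L A B b w * H k L A B b' w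
      = (2 ^ b * G - I * I) / 2 ^ L := by
    unfold H
    rw [← hI]
    have e : ∀ w ∈ range (2 ^ L),
        (2 ^ b * nu (A + 1) (B + 1) (k - b) (w % 2 ^ b) - I) / 2 ^ L *
        ((2 ^ b' * nu (A + 1) (B + 1) (k - b') (w % 2 ^ b') - I) / 2 ^ L)
        = (2 ^ b * 2 ^ b' * (nu (A + 1) (B + 1) (k - b) (w % 2 ^ b) *
            nu (A + 1) (B + 1) (k - b') (w % 2 ^ b'))
          - I * (2 ^ b * nu (A + 1) (B + 1) (k - b) (w % 2 ^ b))
          - I * (2 ^ b' * nu (A + 1) (B + 1) (k - b') (w % 2 ^ b')) + I * I) / (2 ^ L * 2 ^ L) := by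
      intro w _
      field_simp
      ring
    rw [sum_congr rfl e, ← Finset.sum_div, sum_add_distrib, sum_sub_distrib, sum_sub_distrib,
      ← mul_sum, ← mul_sum, ← mul_sum, ← mul_sum, ← mul_sum, hcor, key b (hbb.trans hbL),
      key b' hbL, sum_const,
      card_range, nsmul_eq_mul]
    have e' : (2 : ℝ) ^ L = 2 ^ (L - b') * 2 ^ b' := by rw [← pow_add]; congr 1; omega
    push_cast
    rw [e']
    field_simp
    ring
  rw [hexp, abs_div, abs_of_pos (by positivity : (0 : ℝ) < 2 ^ L), ← hI]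
  apply div_le_div_of_nonneg_right _ (by positivity)
  have e : 2 ^ b * G - I * I = 2 ^ b * (G - I * I / 2 ^ b) := by
    field_simp
  rw [e, abs_mul, abs_of_pos (by positivity : (0 : ℝ) < 2 ^ b), mul_assoc]
  exact mul_le_mul_of_nonneg_left hper (by positivity)

end Pool.Agent.Q47.Champ
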