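import Pool.Agent.Q47.Champ2

/-!
The L² estimate for the word counts of the binary Champernowne sequence.
-/

set_option autoImplicit false

namespace Pool.Agent.Q47.Champ

open Finset

theorem geom_two_sided (b L : ℕ) :
    ∑ b' ∈ Ico 1 L, (1 / (2 : ℝ)) ^ ((b - b') + (b' - b)) ≤ 4 := by
  have h1 : ∑ b' ∈ Ico 1 L, (1 / (2 : ℝ)) ^ ((b - b') + (b' - b))
      ≤ ∑ b' ∈ range (b + L), (1 / (2 : ℝ)) ^ ((b - b') + (b' - b)) := by
    apply sum_le_sum_of_subset_of_nonneg
    · intro x hx
      rw [mem_Ico] at hx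
      rw [mem_range]
      omega
    · intro _ _ _
      positivity
  have h2 : ∑ b' ∈ range b, (1 / (2 : ℝ)) ^ ((b - b') + (b' - b)) ≤ 2 := by
    rw [← Finset.sum_range_reflect]
    refine le_trans ?_ (sum_geometric_two_le b)
    apply sum_le_sum
    intro j hj
    have := mem_range.1 hj
    have e : (b - (b - 1 - j)) + ((b - 1 - j) - b) = j + 1 := by omega
    rw [e, pow_succ]
    have : (0 : ℝ) < (1 / 2) ^ j := by positivity
    linarith
  have h3 : ∑ x ∈ range L, (1 / (2 : ℝ)) ^ ((b - (b + x)) + ((b + x) - b)) ≤ 2 := by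
    refine le_trans ?_ (sum_geometric_two_le L)
    apply sum_le_sum
    intro j _
    have e : (b - (b + j)) + ((b + j) - b) = j := by omega
    rw [e]
  rw [Finset.sum_range_add] at h1
  linarith

/-- the sum of the crossing terms in a block -/
noncomputable def X (k L A B w : ℕ) : ℝ := ∑ b ∈ Ico 1 L, H k L A B b w

theorem X_sq {k L A B : ℕ} (hLk : L ≤ k) (hB : B + 1 ≤ 2 ^ k) :
    ∑ w ∈ range (2 ^ L), X k L A B w ^ 2 ≤ 4 * L * 4 ^ k / 2 ^ L := by
  obtain ⟨C, hC⟩ : ∃ C : ℝ, C = 4 ^ k / 2 ^ L := ⟨_, rfl⟩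
  have hC0 : 0 ≤ C := by rw [hC]; positivity
  have hI : ((B - A : ℕ) : ℝ) ≤ 2 ^ k := by
    have : B - A ≤ 2 ^ k := by omega
    exact_mod_cast this
  have key : ∀ b b', b ≤ b' → b' ≤ L → |∑ w ∈ range (2 ^ L), H k L A B b w * H k L A B b' w|
      ≤ C * (1 / 2) ^ (b' - b) := by
    intro b b' hbb hbL
    refine (H_inner hbb hbL hLk hB).trans ?_
    have e1 : (2 : ℝ) ^ k = 2 ^ (k - b') * 2 ^ (b' - b) * 2 ^ b := by
      rw [← pow_add, ← pow_add]; congr 1; omega
    have e2 : (4 : ℝ) ^ k = 2 ^ k * 2 ^ k := by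
      rw [← mul_pow]; norm_num
    rw [hC, e2]
    have e3 : (2 : ℝ) ^ k * 2 ^ k / 2 ^ L * (1 / 2) ^ (b' - b)
        = 2 ^ b * 2 ^ (k - b') * 2 ^ k / 2 ^ L := by
      rw [one_div, inv_pow]
      nth_rewrite 1 [e1]
      field_simp
    rw [e3]
    gcongr
  have key2 : ∀ b b', b ≤ L → b' ≤ L → |∑ w ∈ range (2 ^ L), H k L A B b w * H k L A B b' w|
      ≤ C * (1 / 2) ^ ((b - b') + (b' - b)) := by
    intro b b' hb hb'
    rcases le_total b b' with h | h
    · have e : (b - b') + (b' - b) = b' - b := by omega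
      rw [e]
      exact key b b' h hb'
    · have e : (b - b') + (b' - b) = b - b' := by omega
      rw [e]
      have h2 := key b' b h hb
      simp_rw [mul_comm (H k L A B b' _)] at h2
      exact h2
  have h1 : ∑ w ∈ range (2 ^ L), X k L A B w ^ 2 = ∑ b ∈ Ico 1 L, ∑ b' ∈ Ico 1 L,
      ∑ w ∈ range (2 ^ L), H k L A B b w * H k L A B b' w := by
    unfold X
    simp_rw [sq, sum_mul_sum]
    rw [sum_comm]
    apply sum_congr rfl
    intro b _
    rw [sum_comm]
  rw [h1]
  calc _ ≤ ∑ b ∈ Ico 1 L, ∑ b' ∈ Ico 1 L, C * (1 / 2) ^ ((b - b') + (b' - b)) := by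
        apply sum_le_sum
        intro b hb
        apply sum_le_sum
        intro b' hb'
        rw [mem_Ico] at hb hb'
        exact (le_abs_self _).trans (key2 b b' (by omega) (by omega))
    _ ≤ ∑ b ∈ Ico 1 L, C * 4 := by
        apply sum_le_sum
        intro b _
        rw [← mul_sum]
        exact mul_le_mul_of_nonneg_left (geom_two_sided b L) hC0
    _ ≤ 4 * L * 4 ^ k / 2 ^ L := by
        rw [sum_const, Nat.card_Ico, nsmul_eq_mul]
        have : ((L - 1 : ℕ) : ℝ) ≤ L := by exact_mod_cast Nat.sub_le _ _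
        have h5 : 4 * (L : ℝ) * 4 ^ k / 2 ^ L = L * (C * 4) := by rw [hC]; ring
        rw [h5]
        exact mul_le_mul_of_nonneg_right this (by positivity)

/-- the deviation function -/
noncomputable def f (L w n : ℕ) : ℝ := (if W L n = w then (1 : ℝ) else 0) - 1 / 2 ^ L

theorem abs_f_le (L w n : ℕ) : |f L w n| ≤ 1 := by
  unfold f
  have h1 : (0 : ℝ) < 1 / 2 ^ L := by positivity
  have h2 : (1 : ℝ) / 2 ^ L ≤ 1 := by
    rw [div_le_one (by positivity)]
    exact one_le_pow₀ (by norm_num)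
  split_ifs <;> rw [abs_le] <;> constructor <;> linarith

/-- one block -/
theorem block_est {k L A B w : ℕ} (hL : 1 ≤ L) (hLk : L ≤ k) (hA : 2 ^ (k - 1) ≤ A)
    (hB : B ≤ 2 ^ k) (hw : w < 2 ^ L) :
    |∑ m ∈ Ico A B, ∑ j ∈ range (len m), f L w (S m + j) - X k L A (min B (2 ^ k - 1)) w|
      ≤ 2 * 2 ^ k / 2 ^ L + 2 * L := by
  have hk : 1 ≤ k := hL.trans hLk
  have hlen : ∀ m ∈ Ico A B, len m = k := by
    intro m hm
    rw [mem_Ico] at hm
    exact len_eq hk (hA.trans hm.1) (by omega)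
  have hm0 : ∀ m ∈ Ico A B, m ≠ 0 := by
    intro m hm
    rw [mem_Ico] at hm
    have : 0 < 2 ^ (k - 1) := by positivity
    omega
  have e1 : ∑ m ∈ Ico A B, ∑ j ∈ range (len m), f L w (S m + j)
      = ∑ j ∈ range (k - L + 1), ∑ m ∈ Ico A B, f L w (S m + j)
        + ∑ b ∈ Ico 1 L, ∑ m ∈ Ico A B, f L w (S m + (k - L + b)) := by
    have e2 : ∀ m ∈ Ico A B, ∑ j ∈ range (len m), f L w (S m + j)
        = ∑ j ∈ range (k - L + 1), f L w (S m + j)
          + ∑ b ∈ Ico 1 L, f L w (S m + (k - L + b)) := by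
      intro m hm
      rw [hlen m hm]
      have e3 := Finset.sum_Ico_add (fun j => f L w (S m + j)) 1 L (k - L)
      rw [e3, Finset.range_eq_Ico, Finset.range_eq_Ico]
      have e4 : k - L + 1 = 1 + (k - L) := by omega
      have e5 : L + (k - L) = k := by omega
      rw [e4, e5]
      rw [Finset.sum_Ico_consecutive _ (by omega) (by omega)]
    rw [sum_congr rfl e2, sum_add_distrib, sum_comm]
    congr 1
    rw [sum_comm]
  have hint : |∑ j ∈ range (k - L + 1), ∑ m ∈ Ico A B, f L w (S m + j)| ≤ 2 * 2 ^ k / 2 ^ L := by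
    have h1 : ∀ j ∈ range (k - L + 1), |∑ m ∈ Ico A B, f L w (S m + j)| ≤ 2 ^ (k - L - j) := by
      intro j hj
      rw [mem_range] at hj
      have h2 := interior_count (k - L - j) L w A B hw
      refine le_trans (le_of_eq ?_) h2
      congr 1
      apply sum_congr rfl
      intro m hm
      unfold f
      rw [W_interior (hm0 m hm) L j (by rw [hlen m hm]; omega), hlen m hm]
      have e : k - j - L = k - L - j := by omega
      rw [e]
    refine (abs_sum_le_sum_abs _ _).trans ((sum_le_sum h1).trans ?_)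
    rw [← Finset.sum_range_reflect]
    have h3 : ∑ j ∈ range (k - L + 1), (2 : ℝ) ^ (k - L - (k - L + 1 - 1 - j))
        = ∑ j ∈ range (k - L + 1), (2 : ℝ) ^ j := by
      apply sum_congr rfl
      intro j hj
      rw [mem_range] at hj
      congr 1
      omega
    rw [h3]
    have h4 : ∀ n : ℕ, ∑ j ∈ range n, (2 : ℝ) ^ j ≤ 2 ^ n := by
      intro n
      induction n with
      | zero => simp
      | succ n ih => rw [sum_range_succ, pow_succ]; linarith
    refine (h4 _).trans (le_of_eq ?_)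
    have e5 : (2 : ℝ) ^ k = 2 ^ (k - L) * 2 ^ L := by rw [← pow_add]; congr 1; omega
    rw [e5, pow_succ]
    field_simp
  have hcr : ∀ b ∈ Ico 1 L, |∑ m ∈ Ico A B, f L w (S m + (k - L + b))
      - H k L A (min B (2 ^ k - 1)) b w| ≤ 2 := by
    intro b hb
    rw [mem_Ico] at hb
    obtain ⟨B', hB'⟩ : ∃ B', B' = min B (2 ^ k - 1) := ⟨_, rfl⟩
    have h2k : 0 < 2 ^ k := by positivity
    have hB'k : B' + 1 ≤ 2 ^ k := by omega
    have hB'B : B' ≤ B := by omega
    have hBB' : B ≤ B' + 1 := by omega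
    rw [← hB']
    have h1 : |∑ m ∈ Ico A B, f L w (S m + (k - L + b))
        - ∑ m ∈ Ico A B', f L w (S m + (k - L + b))| ≤ 1 := by
      rcases le_or_gt B A with h | h
      · rw [Finset.Ico_eq_empty (by omega), Finset.Ico_eq_empty (by omega)]
        simp
      rcases eq_or_lt_of_le hB'B with h' | h'
      · rw [h']; simp
      · have hAB' : A ≤ B' := by omega
        have hBe : B = B' + 1 := by omega
        rw [hBe, Finset.sum_Ico_succ_top hAB', add_sub_cancel_left]
        exact abs_f_le _ _ _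
    have hcc := crossing_count (L - b) b (k - b) w A B'
      (by rw [← pow_add]; have : b + (k - b) = k := by omega
          rw [this]; exact hB'k)
      (by have : L - b + b = L := by omega
          rw [this]; exact hw)
    have h2 : ∑ m ∈ Ico A B', f L w (S m + (k - L + b)) - H k L A B' b w
        = ∑ m ∈ Ico A B', (if m % 2 ^ (L - b) * 2 ^ b + (m + 1) / 2 ^ (k - b) = w
            then (1 : ℝ) else 0) - nu (A + 1) (B' + 1) (k - b) (w % 2 ^ b) / 2 ^ (L - b) := by
      have h3 : ∑ m ∈ Ico A B', f L w (S m + (k - L + b))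
          = ∑ m ∈ Ico A B', (if m % 2 ^ (L - b) * 2 ^ b + (m + 1) / 2 ^ (k - b) = w
            then (1 : ℝ) else 0) - ((B' - A : ℕ) : ℝ) / 2 ^ L := by
        unfold f
        rw [sum_sub_distrib, sum_const, Nat.card_Ico, nsmul_eq_mul]
        congr 1
        · apply sum_congr rfl
          intro m hm
          rw [mem_Ico] at hm
          have hW := W_crossing (m := m) (k := k) (a := L - b) (b := b) hk (by omega) (by omega)
            (by omega) (by omega)
          have e6 : L - b + b = L := by omega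
          have e7 : k - (L - b) = k - L + b := by omega
          rw [e6, e7] at hW
          rw [hW]
        · ring
      rw [h3]
      unfold H
      have e5 : (2 : ℝ) ^ L = 2 ^ (L - b) * 2 ^ b := by rw [← pow_add]; congr 1; omega
      rw [e5]
      field_simp
      ring
    rw [← h2] at hcc
    have e8 : ∑ m ∈ Ico A B, f L w (S m + (k - L + b)) - H k L A B' b w
        = (∑ m ∈ Ico A B, f L w (S m + (k - L + b))
          - ∑ m ∈ Ico A B', f L w (S m + (k - L + b)))
          + (∑ m ∈ Ico A B', f L w (S m + (k - L + b)) - H k L A B' b w) := by ring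
    rw [e8]
    refine (abs_add_le _ _).trans ?_
    linarith
  have e9 : ∑ m ∈ Ico A B, ∑ j ∈ range (len m), f L w (S m + j) - X k L A (min B (2 ^ k - 1)) w
      = ∑ j ∈ range (k - L + 1), ∑ m ∈ Ico A B, f L w (S m + j)
        + ∑ b ∈ Ico 1 L, (∑ m ∈ Ico A B, f L w (S m + (k - L + b))
          - H k L A (min B (2 ^ k - 1)) b w) := by
    rw [e1, sum_sub_distrib]
    unfold X
    ring
  rw [e9]
  refine (abs_add_le _ _).trans (add_le_add hint ?_)
  refine (abs_sum_le_sum_abs _ _).trans ((sum_le_sum hcr).trans ?_)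
  rw [sum_const, Nat.card_Ico, nsmul_eq_mul]
  have : ((L - 1 : ℕ) : ℝ) ≤ L := by exact_mod_cast Nat.sub_le _ _
  linarith

end Pool.Agent.Q47.Champ
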