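import Pool.Agent.Q47.Champ3

/-!
The total L² estimate.
-/

set_option autoImplicit false

namespace Pool.Agent.Q47.Champ

open Finset

theorem sum_S (φ : ℕ → ℝ) (M : ℕ) :
    ∑ n ∈ range (S M), φ n = ∑ m ∈ range M, ∑ j ∈ range (len m), φ (S m + j) := by
  induction M with
  | zero => simp [S]
  | succ M ih => rw [S_succ, Finset.sum_range_add, ih, sum_range_succ]

theorem len_le {m k : ℕ} (h : m < 2 ^ k) : len m ≤ k := by
  rcases Nat.eq_zero_or_pos m with h0 | h0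
  · rw [h0, len_zero]; omega
  · unfold len
    rw [Nat.length_digits 2 m (by norm_num) (by omega)]
    have := Nat.log_lt_of_lt_pow (b := 2) (by omega : m ≠ 0) h
    omega

theorem le_len {m k : ℕ} (h : 2 ^ k ≤ m) : k + 1 ≤ len m := by
  have h0 : 0 < 2 ^ k := by positivity
  unfold len
  rw [Nat.length_digits 2 m (by norm_num) (by omega)]
  have := Nat.le_log_of_pow_le (b := 2) (by norm_num) h
  omega

theorem S_le {M k : ℕ} (h : M ≤ 2 ^ k) : S M ≤ M * k := by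
  unfold S
  calc ∑ i ∈ range M, len i ≤ ∑ i ∈ range M, k := by
        apply sum_le_sum
        intro i hi
        rw [mem_range] at hi
        exact len_le (by omega)
    _ = M * k := by simp

theorem S_mono {a b : ℕ} (h : a ≤ b) : S a ≤ S b := by
  unfold S
  exact sum_le_sum_of_subset (by intro x hx; rw [mem_range] at hx ⊢; omega)

theorem le_S_pow (k : ℕ) : k * 2 ^ k ≤ 2 * S (2 ^ k) := by
  cases k with
  | zero => simp
  | succ k =>
    have h1 : ∑ i ∈ Ico (2 ^ k) (2 ^ (k + 1)), len i ≤ S (2 ^ (k + 1)) := by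
      unfold S
      apply sum_le_sum_of_subset
      intro x hx
      rw [mem_Ico] at hx
      rw [mem_range]
      omega
    have h2 : ∑ i ∈ Ico (2 ^ k) (2 ^ (k + 1)), (k + 1) ≤ ∑ i ∈ Ico (2 ^ k) (2 ^ (k + 1)), len i := by
      apply sum_le_sum
      intro i hi
      rw [mem_Ico] at hi
      exact le_len hi.1
    rw [sum_const, Nat.card_Ico, smul_eq_mul] at h2
    have h3 : 2 ^ (k + 1) - 2 ^ k = 2 ^ k := by rw [pow_succ]; omega
    rw [h3] at h2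
    have h4 : (k + 1) * 2 ^ (k + 1) = 2 * (2 ^ k * (k + 1)) := by rw [pow_succ]; ring
    rw [h4]
    exact Nat.mul_le_mul_left 2 (h2.trans h1)

/-- the splitting into dyadic blocks -/
theorem blocks (Ψ : ℕ → ℝ) {L K M : ℕ} (hLK : L ≤ K) (h1 : 2 ^ K ≤ M) (h2 : M ≤ 2 ^ (K + 1)) :
    ∑ m ∈ Ico (2 ^ L) M, Ψ m = ∑ k ∈ Ico L (K + 1), ∑ m ∈ Ico (2 ^ k) (min (2 ^ (k + 1)) M), Ψ m := by
  rw [Finset.sum_Ico_succ_top hLK, min_eq_right h2]
  have h3 : ∀ n, L ≤ n → n ≤ K → ∑ m ∈ Ico (2 ^ L) (2 ^ n), Ψ m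
      = ∑ k ∈ Ico L n, ∑ m ∈ Ico (2 ^ k) (min (2 ^ (k + 1)) M), Ψ m := by
    intro n hn
    induction n, hn using Nat.le_induction with
    | base => intro _; simp
    | succ n hn ih =>
      intro hnK
      rw [Finset.sum_Ico_succ_top hn, ← ih (by omega)]
      have h4 : 2 ^ (n + 1) ≤ M := (Nat.pow_le_pow_right (by norm_num) hnK).trans h1
      rw [min_eq_left h4, Finset.sum_Ico_consecutive _ (Nat.pow_le_pow_right (by norm_num) hn)
        (Nat.pow_le_pow_right (by norm_num) (by omega))]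
  rw [← h3 K hLK le_rfl, Finset.sum_Ico_consecutive _ (Nat.pow_le_pow_right (by norm_num) hLK) h1]

/-- the total deviation -/
noncomputable def D (N L w : ℕ) : ℝ := ∑ n ∈ Ico 1 (N + 1), f L w n

/-- the main part of the deviation -/
noncomputable def Z (M K L w : ℕ) : ℝ :=
  ∑ k ∈ Ico L (K + 1), X (k + 1) L (2 ^ k) (min (min (2 ^ (k + 1)) M) (2 ^ (k + 1) - 1)) w

theorem D_sub_Z {N M K L w : ℕ} (hL : 1 ≤ L) (hLK : L ≤ K) (h1 : 2 ^ K ≤ M) (h2 : M < 2 ^ (K + 1))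
    (hS1 : S M ≤ N) (hS2 : N < S (M + 1)) (hw : w < 2 ^ L) :
    |D N L w - Z M K L w| ≤ L * 2 ^ L + 8 * 2 ^ K / 2 ^ L + 2 * L * (K + 1) + (K + 2) := by
  have e1 : D N L w = ∑ n ∈ range (S M), f L w n + ∑ n ∈ Ico (S M) (N + 1), f L w n - f L w 0 := by
    rw [Finset.range_eq_Ico, Finset.sum_Ico_consecutive _ (Nat.zero_le _) (by omega)]
    unfold D
    rw [Finset.sum_eq_sum_Ico_succ_bot (by omega : 0 < N + 1)]
    ring
  have e2 : ∑ n ∈ range (S M), f L w n = ∑ n ∈ range (S (2 ^ L)), f L w n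
      + ∑ k ∈ Ico L (K + 1), ∑ m ∈ Ico (2 ^ k) (min (2 ^ (k + 1)) M),
        ∑ j ∈ range (len m), f L w (S m + j) := by
    rw [sum_S, sum_S, ← blocks _ hLK h1 h2.le, Finset.range_eq_Ico, Finset.range_eq_Ico,
      Finset.sum_Ico_consecutive _ (Nat.zero_le _)
        ((Nat.pow_le_pow_right (by norm_num) hLK).trans h1)]
  have b1 : |∑ n ∈ range (S (2 ^ L)), f L w n| ≤ L * 2 ^ L := by
    refine (abs_sum_le_sum_abs _ _).trans ((sum_le_sum (fun n _ => abs_f_le L w n)).trans ?_)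
    rw [sum_const, card_range, nsmul_eq_mul, mul_one]
    have := S_le (le_refl (2 ^ L))
    calc ((S (2 ^ L) : ℕ) : ℝ) ≤ ((2 ^ L * L : ℕ) : ℝ) := by exact_mod_cast this
      _ = L * 2 ^ L := by push_cast; ring
  have b2 : |∑ n ∈ Ico (S M) (N + 1), f L w n| ≤ K + 1 := by
    refine (abs_sum_le_sum_abs _ _).trans ((sum_le_sum (fun n _ => abs_f_le L w n)).trans ?_)
    rw [sum_const, Nat.card_Ico, nsmul_eq_mul, mul_one]
    have h3 : len M ≤ K + 1 := len_le h2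
    rw [S_succ] at hS2
    have : N + 1 - S M ≤ K + 1 := by omega
    exact_mod_cast this
  have b3 : |f L w 0| ≤ 1 := abs_f_le _ _ _
  have b4 : |∑ k ∈ Ico L (K + 1), ∑ m ∈ Ico (2 ^ k) (min (2 ^ (k + 1)) M),
        ∑ j ∈ range (len m), f L w (S m + j) - Z M K L w|
      ≤ 8 * 2 ^ K / 2 ^ L + 2 * L * (K + 1) := by
    unfold Z
    rw [← sum_sub_distrib]
    have h3 : ∀ k ∈ Ico L (K + 1), |∑ m ∈ Ico (2 ^ k) (min (2 ^ (k + 1)) M),
        ∑ j ∈ range (len m), f L w (S m + j)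
        - X (k + 1) L (2 ^ k) (min (min (2 ^ (k + 1)) M) (2 ^ (k + 1) - 1)) w|
        ≤ 4 / 2 ^ L * 2 ^ k + 2 * L := by
      intro k hk
      rw [mem_Ico] at hk
      have h4 := block_est (k := k + 1) (L := L) (A := 2 ^ k) (B := min (2 ^ (k + 1)) M) (w := w)
        hL (by omega) (by simp) (min_le_left _ _) hw
      refine h4.trans (le_of_eq ?_)
      rw [pow_succ]
      ring
    refine (abs_sum_le_sum_abs _ _).trans ((sum_le_sum h3).trans ?_)
    rw [sum_add_distrib, sum_const, Nat.card_Ico, nsmul_eq_mul, ← mul_sum]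
    have h4 : ∑ k ∈ Ico L (K + 1), (2 : ℝ) ^ k ≤ 2 * 2 ^ K := by
      have h5 : ∀ n : ℕ, ∑ j ∈ range n, (2 : ℝ) ^ j ≤ 2 ^ n := by
        intro n
        induction n with
        | zero => simp
        | succ n ih => rw [sum_range_succ, pow_succ]; linarith
      refine (sum_le_sum_of_subset_of_nonneg ?_ ?_).trans ((h5 (K + 1)).trans ?_)
      · intro x hx
        rw [mem_Ico] at hx
        rw [mem_range]
        omega
      · intro _ _ _
        positivity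
      · rw [pow_succ]; linarith
    have h6 : ((K + 1 - L : ℕ) : ℝ) ≤ K + 1 := by
      have : K + 1 - L ≤ K + 1 := by omega
      exact_mod_cast this
    have h7 : (4 : ℝ) / 2 ^ L * ∑ k ∈ Ico L (K + 1), (2 : ℝ) ^ k ≤ 8 * 2 ^ K / 2 ^ L := by
      calc (4 : ℝ) / 2 ^ L * ∑ k ∈ Ico L (K + 1), (2 : ℝ) ^ k ≤ 4 / 2 ^ L * (2 * 2 ^ K) := by gcongr
        _ = 8 * 2 ^ K / 2 ^ L := by ring
    have h8 : ((K + 1 - L : ℕ) : ℝ) * (2 * L) ≤ 2 * L * (K + 1) := by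
      have : (0 : ℝ) ≤ 2 * L := by positivity
      nlinarith
    linarith
  rw [e1, e2]
  rw [abs_le] at b1 b2 b3 b4 ⊢
  constructor <;> linarith [b1.1, b1.2, b2.1, b2.2, b3.1, b3.2, b4.1, b4.2]

theorem Z_sq {M K L : ℕ} (hLK : L ≤ K) :
    ∑ w ∈ range (2 ^ L), Z M K L w ^ 2 ≤ 64 * L * 4 ^ K / 2 ^ L := by
  have h0 : ∀ n : ℕ, ∑ j ∈ range n, (2 : ℝ) ^ j ≤ 2 ^ n := by
    intro n
    induction n with
    | zero => simp
    | succ n ih => rw [sum_range_succ, pow_succ]; linarith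
  have hG : ∑ k ∈ Ico L (K + 1), (2 : ℝ) ^ (k + 1) ≤ 4 * 2 ^ K := by
    have h4 : ∑ k ∈ Ico L (K + 1), (2 : ℝ) ^ k ≤ 2 * 2 ^ K := by
      refine (sum_le_sum_of_subset_of_nonneg ?_ ?_).trans ((h0 (K + 1)).trans ?_)
      · intro x hx
        rw [mem_Ico] at hx
        rw [mem_range]
        omega
      · intro _ _ _
        positivity
      · rw [pow_succ]; linarith
    simp_rw [pow_succ]
    rw [← sum_mul]
    linarith
  have hG0 : 0 ≤ ∑ k ∈ Ico L (K + 1), (2 : ℝ) ^ (k + 1) := sum_nonneg (fun _ _ => by positivity)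
  have h1 : ∀ w, Z M K L w ^ 2 ≤ (∑ k ∈ Ico L (K + 1), (2 : ℝ) ^ (k + 1)) *
      ∑ k ∈ Ico L (K + 1),
        X (k + 1) L (2 ^ k) (min (min (2 ^ (k + 1)) M) (2 ^ (k + 1) - 1)) w ^ 2 / 2 ^ (k + 1) := by
    intro w
    unfold Z
    apply Finset.sum_sq_le_sum_mul_sum_of_sq_le_mul
    · intro i _; positivity
    · intro i _; positivity
    · intro i _
      apply le_of_eq
      field_simp
  calc ∑ w ∈ range (2 ^ L), Z M K L w ^ 2
      ≤ ∑ w ∈ range (2 ^ L), (∑ k ∈ Ico L (K + 1), (2 : ℝ) ^ (k + 1)) *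
      ∑ k ∈ Ico L (K + 1),
        X (k + 1) L (2 ^ k) (min (min (2 ^ (k + 1)) M) (2 ^ (k + 1) - 1)) w ^ 2 / 2 ^ (k + 1) :=
        sum_le_sum (fun w _ => h1 w)
    _ = (∑ k ∈ Ico L (K + 1), (2 : ℝ) ^ (k + 1)) * ∑ k ∈ Ico L (K + 1),
        (∑ w ∈ range (2 ^ L),
          X (k + 1) L (2 ^ k) (min (min (2 ^ (k + 1)) M) (2 ^ (k + 1) - 1)) w ^ 2) / 2 ^ (k + 1) := by
        rw [← mul_sum, sum_comm]
        simp_rw [Finset.sum_div]
    _ ≤ (∑ k ∈ Ico L (K + 1), (2 : ℝ) ^ (k + 1)) * ∑ k ∈ Ico L (K + 1),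
        (4 * (L : ℝ) / 2 ^ L * 2 ^ (k + 1)) := by
        apply mul_le_mul_of_nonneg_left _ hG0
        apply sum_le_sum
        intro k hk
        rw [mem_Ico] at hk
        have h2k : 0 < 2 ^ (k + 1) := by positivity
        have h3 := X_sq (k := k + 1) (L := L) (A := 2 ^ k)
          (B := min (min (2 ^ (k + 1)) M) (2 ^ (k + 1) - 1)) (by omega) (by omega)
        rw [div_le_iff₀ (by positivity)]
        refine h3.trans (le_of_eq ?_)
        have e : (4 : ℝ) ^ (k + 1) = 2 ^ (k + 1) * 2 ^ (k + 1) := by rw [← mul_pow]; norm_num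
        rw [e]
        ring
    _ = 4 * (L : ℝ) / 2 ^ L * ((∑ k ∈ Ico L (K + 1), (2 : ℝ) ^ (k + 1)) *
          (∑ k ∈ Ico L (K + 1), (2 : ℝ) ^ (k + 1))) := by
        rw [← mul_sum]; ring
    _ ≤ 4 * (L : ℝ) / 2 ^ L * ((4 * 2 ^ K) * (4 * 2 ^ K)) := by
        gcongr
    _ = 64 * L * 4 ^ K / 2 ^ L := by
        have e : (4 : ℝ) ^ K = 2 ^ K * 2 ^ K := by rw [← mul_pow]; norm_num
        rw [e]; ring

/-- the error energy -/
noncomputable def E (N L : ℕ) : ℝ := ∑ w ∈ range (2 ^ L), D N L w ^ 2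

theorem E_bound {N M K L : ℕ} (hL : 1 ≤ L) (hLK : L ≤ K) (h1 : 2 ^ K ≤ M) (h2 : M < 2 ^ (K + 1))
    (hS1 : S M ≤ N) (hS2 : N < S (M + 1)) :
    E N L * 2 ^ L ≤ 128 * L * 4 ^ K +
      2 * (L * 4 ^ L + 8 * 2 ^ K + (2 * L * (K + 1) + (K + 2)) * 2 ^ L) ^ 2 := by
  obtain ⟨R, hR⟩ : ∃ R : ℝ, R = L * 2 ^ L + 8 * 2 ^ K / 2 ^ L + 2 * L * (K + 1) + (K + 2) := ⟨_, rfl⟩
  have hE : E N L ≤ 2 * ∑ w ∈ range (2 ^ L), Z M K L w ^ 2 + 2 ^ L * (2 * R ^ 2) := by
    unfold E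
    have h3 : ∀ w ∈ range (2 ^ L), D N L w ^ 2 ≤ 2 * Z M K L w ^ 2 + 2 * R ^ 2 := by
      intro w hw
      have h4 := D_sub_Z hL hLK h1 h2 hS1 hS2 (mem_range.1 hw)
      rw [← hR] at h4
      have h5 : (D N L w - Z M K L w) ^ 2 ≤ R ^ 2 := by
        rw [← sq_abs]
        exact pow_le_pow_left₀ (abs_nonneg _) h4 2
      nlinarith [sq_nonneg (D N L w - 2 * Z M K L w)]
    refine (sum_le_sum h3).trans ?_
    rw [sum_add_distrib, ← mul_sum, sum_const, card_range, nsmul_eq_mul]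
    push_cast
    exact le_rfl
  have hZ := Z_sq (M := M) hLK
  have e4 : (4 : ℝ) ^ L = 2 ^ L * 2 ^ L := by rw [← mul_pow]; norm_num
  have e5 : (L * 4 ^ L + 8 * 2 ^ K + (2 * L * (K + 1) + (K + 2)) * 2 ^ L : ℝ) = 2 ^ L * R := by
    rw [hR, e4]
    field_simp
    ring
  rw [e5]
  have hp : (0 : ℝ) < 2 ^ L := by positivity
  calc E N L * 2 ^ L ≤ (2 * (64 * L * 4 ^ K / 2 ^ L) + 2 ^ L * (2 * R ^ 2)) * 2 ^ L := by
        apply mul_le_mul_of_nonneg_right _ hp.le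
        linarith
    _ = _ := by
        field_simp
        ring

end Pool.Agent.Q47.Champ
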