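import Pool.Agent.Q47.Champ4

/-!
The total L² estimate, asymptotic form.
-/

set_option autoImplicit false

namespace Pool.Agent.Q47.Champ

open Finset Filter Topology

theorem exists_M (N : ℕ) : ∃ M, 1 ≤ M ∧ S M ≤ N ∧ N < S (M + 1) := by
  have h : ∃ M, N < S (M + 1 + 1) := ⟨N, lt_of_lt_of_le (Nat.lt_succ_self N) (le_S (N + 1))⟩
  classical
  refine ⟨Nat.find h + 1, by omega, ?_, Nat.find_spec h⟩
  rcases Nat.eq_zero_or_pos (Nat.find h) with h0 | h0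
  · rw [h0]
    have := S_one
    simp only [zero_add]
    omega
  · have h1 := Nat.find_min h (m := Nat.find h - 1) (by omega)
    have e : Nat.find h - 1 + 1 + 1 = Nat.find h + 1 := by omega
    rw [e] at h1
    omega

theorem main_L2 {β C : ℝ} (hβ0 : 0 < β) (hβ : β < 1 / 2) (hC : 0 < C) {ε : ℝ} (hε : 0 < ε) :
    ∃ N₀ : ℕ, ∀ N ≥ N₀, ∀ L : ℕ, 1 ≤ L → (2 : ℝ) ^ L ≤ C * (N : ℝ) ^ β →
      E N L * 2 ^ L ≤ ε * (N : ℝ) ^ 2 := by
  obtain ⟨ρ, hρ⟩ : ∃ ρ : ℝ, ρ = (2 : ℝ) ^ (2 * β - 1) := ⟨_, rfl⟩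
  have hρ0 : 0 < ρ := by rw [hρ]; positivity
  have hρ1 : ρ < 1 := by
    rw [hρ]
    exact Real.rpow_lt_one_of_one_lt_of_neg (by norm_num) (by linarith)
  obtain ⟨η, hη0, hη1⟩ : ∃ η : ℝ, 0 < η ∧ 18 * η ^ 2 ≤ ε / 2 := by
    refine ⟨min 1 (ε / 36), by positivity, ?_⟩
    have h1 : min 1 (ε / 36) ≤ 1 := min_le_left _ _
    have h2 : min 1 (ε / 36) ≤ ε / 36 := min_le_right _ _
    have h3 : 0 < min 1 (ε / 36) := by positivity
    nlinarith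
  have ha : |ρ| < 1 := by rw [abs_of_pos hρ0]; exact hρ1
  have t0 := tendsto_pow_const_mul_const_pow_of_abs_lt_one 0 ha
  have t1 := tendsto_pow_const_mul_const_pow_of_abs_lt_one 1 ha
  have t2 := tendsto_pow_const_mul_const_pow_of_abs_lt_one 2 ha
  -- the eventual inequalities
  have E1 : ∀ᶠ K : ℕ in atTop, C * (2 * 4 ^ β) * ρ ^ K ≤ 1 / 2 := by
    have h := (t0.const_mul (C * (2 * 4 ^ β)))
    rw [mul_zero] at h
    filter_upwards [h.eventually (gt_mem_nhds (by norm_num : (0 : ℝ) < 1 / 2))] with K hK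
    simp only [pow_zero, one_mul] at hK
    exact hK.le
  have E2 : ∀ᶠ K : ℕ in atTop, (K : ℝ) * C ^ 2 * (ρ⁻¹ * ρ ^ K) ≤ η := by
    have h := (t1.const_mul (C ^ 2 * ρ⁻¹))
    rw [mul_zero] at h
    filter_upwards [h.eventually (gt_mem_nhds hη0)] with K hK
    simp only [pow_one] at hK
    calc (K : ℝ) * C ^ 2 * (ρ⁻¹ * ρ ^ K) = C ^ 2 * ρ⁻¹ * (K * ρ ^ K) := by ring
      _ ≤ η := hK.le
  have E3 : ∀ᶠ K : ℕ in atTop, (2 * (K : ℝ) * (K + 1) + (K + 2)) * C * (ρ⁻¹ * ρ ^ K) ≤ η := by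
    have h := ((t2.const_mul (2 * C * ρ⁻¹)).add (t1.const_mul (3 * C * ρ⁻¹))).add
      (t0.const_mul (2 * C * ρ⁻¹))
    simp only [mul_zero, add_zero] at h
    filter_upwards [h.eventually (gt_mem_nhds hη0)] with K hK
    simp only [pow_one, pow_zero, one_mul] at hK
    calc (2 * (K : ℝ) * (K + 1) + (K + 2)) * C * (ρ⁻¹ * ρ ^ K)
        = 2 * C * ρ⁻¹ * ((K : ℝ) ^ 2 * ρ ^ K) + 3 * C * ρ⁻¹ * (K * ρ ^ K)
          + 2 * C * ρ⁻¹ * ρ ^ K := by ring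
      _ ≤ η := hK.le
  have E4 : ∀ᶠ K : ℕ in atTop, 16 / (K : ℝ) ≤ η := by
    have h := tendsto_const_div_atTop_nhds_zero_nat (16 : ℝ)
    filter_upwards [h.eventually (gt_mem_nhds hη0)] with K hK using hK.le
  have E5 : ∀ᶠ K : ℕ in atTop, 512 / (K : ℝ) ≤ ε / 2 := by
    have h := tendsto_const_div_atTop_nhds_zero_nat (512 : ℝ)
    filter_upwards [h.eventually (gt_mem_nhds (half_pos hε))] with K hK using hK.le
  obtain ⟨K₀, hK₀⟩ := eventually_atTop.1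
    ((((E1.and E2).and E3).and E4).and (E5.and (eventually_ge_atTop 1)))
  refine ⟨4 ^ (K₀ + 1), ?_⟩
  intro N hN L hL hLN
  obtain ⟨M, hM1, hS1, hS2⟩ := exists_M N
  obtain ⟨K, hK⟩ : ∃ K, K = Nat.log 2 M := ⟨_, rfl⟩
  have hM2 : 2 ^ K ≤ M := by rw [hK]; exact Nat.pow_log_le_self 2 (by omega)
  have hM3 : M < 2 ^ (K + 1) := by rw [hK]; exact Nat.lt_pow_succ_log_self (by norm_num) M
  have hNlt : N < 2 ^ (K + 1) * (K + 1) :=
    calc N < S (M + 1) := hS2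
      _ ≤ (M + 1) * (K + 1) := S_le (by omega)
      _ ≤ 2 ^ (K + 1) * (K + 1) := Nat.mul_le_mul_right _ (by omega)
  have hN4 : N < 4 ^ (K + 1) := by
    have h5 : K + 1 < 2 ^ (K + 1) := Nat.lt_two_pow_self
    calc N < 2 ^ (K + 1) * (K + 1) := hNlt
      _ ≤ 2 ^ (K + 1) * 2 ^ (K + 1) := Nat.mul_le_mul_left _ h5.le
      _ = 4 ^ (K + 1) := by rw [← mul_pow]; norm_num
  have hKK : K₀ ≤ K := by
    by_contra hcon
    have : 4 ^ (K + 1) ≤ 4 ^ (K₀ + 1) := Nat.pow_le_pow_right (by norm_num) (by omega)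
    omega
  obtain ⟨⟨⟨⟨f1, f2⟩, f3⟩, f4⟩, f5, f6⟩ := hK₀ K hKK
  have hK0 : (0 : ℝ) < K := by exact_mod_cast f6
  have hKN : K * 2 ^ K ≤ 2 * N := (le_S_pow K).trans (Nat.mul_le_mul_left 2
    ((S_mono hM2).trans hS1))
  have hKN' : (K : ℝ) * 2 ^ K ≤ 2 * N := by exact_mod_cast hKN
  have hNpos : 0 < N := lt_of_lt_of_le (by positivity) hN
  have hNpos' : (0 : ℝ) < N := by exact_mod_cast hNpos
  have h2KN : (2 : ℝ) ^ K ≤ 2 * N := by
    have h1 : (1 : ℝ) ≤ K := by exact_mod_cast f6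
    have h2 : (0 : ℝ) ≤ 2 ^ K := by positivity
    have h3 := mul_le_mul_of_nonneg_right h1 h2
    linarith
  -- the power bounds
  have hpow : (N : ℝ) ^ (2 * β - 1) ≤ ρ⁻¹ * ρ ^ K := by
    have h7 : (2 : ℝ) ^ K / 2 ≤ N := by linarith
    calc (N : ℝ) ^ (2 * β - 1) ≤ ((2 : ℝ) ^ K / 2) ^ (2 * β - 1) :=
          Real.rpow_le_rpow_of_nonpos (by positivity) h7 (by linarith)
      _ = ρ⁻¹ * ρ ^ K := by
          rw [Real.div_rpow (by positivity) (by norm_num), ← hρ, ← Real.rpow_natCast 2 K,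
            ← Real.rpow_mul (by norm_num), mul_comm (K : ℝ), Real.rpow_mul (by norm_num),
            ← hρ, Real.rpow_natCast]
          field_simp
  have hN1 : (1 : ℝ) ≤ N := by exact_mod_cast hNpos
  have hNβ : (N : ℝ) ^ β = N * (N : ℝ) ^ (β - 1) := by
    rw [Real.rpow_sub_one hNpos'.ne']
    field_simp
  have hNβ' : (N : ℝ) ^ β ≤ N * (ρ⁻¹ * ρ ^ K) := by
    rw [hNβ]
    apply mul_le_mul_of_nonneg_left _ hNpos'.le
    exact (Real.rpow_le_rpow_of_exponent_le hN1 (by linarith)).trans hpow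
  have hN2β : ((N : ℝ) ^ β) ^ 2 ≤ N * (ρ⁻¹ * ρ ^ K) := by
    have h8 : ((N : ℝ) ^ β) ^ 2 = N * (N : ℝ) ^ (2 * β - 1) := by
      rw [← Real.rpow_natCast, ← Real.rpow_mul hNpos'.le, Real.rpow_sub_one hNpos'.ne']
      push_cast
      rw [mul_comm β 2]
      field_simp
    rw [h8]
    exact mul_le_mul_of_nonneg_left hpow hNpos'.le
  have hLK : L ≤ K := by
    by_contra hcon
    have h9 : (2 : ℝ) ^ (K + 1) ≤ 2 ^ L := pow_le_pow_right₀ (by norm_num) (by omega)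
    have h10 : (N : ℝ) ^ β ≤ 4 ^ β * (2 ^ K * ρ ^ K) := by
      have h11 : (N : ℝ) ≤ (4 : ℝ) * 4 ^ K := by
        have : (N : ℝ) ≤ (4 : ℝ) ^ (K + 1) := by exact_mod_cast hN4.le
        rw [pow_succ] at this
        linarith
      calc (N : ℝ) ^ β ≤ ((4 : ℝ) * 4 ^ K) ^ β :=
            Real.rpow_le_rpow hNpos'.le h11 hβ0.le
        _ = 4 ^ β * (4 ^ K) ^ β := Real.mul_rpow (by norm_num) (by positivity)
        _ = 4 ^ β * (2 ^ K * ρ ^ K) := by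
            congr 1
            rw [← mul_pow, hρ, Real.rpow_sub_one (by norm_num)]
            have e0 : (2 : ℝ) ^ (2 * β) = 4 ^ β := by
              rw [Real.rpow_mul (by norm_num)]
              norm_num
            have e : (2 : ℝ) * (2 ^ (2 * β) / 2) = 4 ^ β := by
              rw [e0]; ring
            rw [e, ← Real.rpow_natCast, ← Real.rpow_natCast, ← Real.rpow_mul (by norm_num),
              ← Real.rpow_mul (by norm_num), mul_comm]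
    have h12 : (2 : ℝ) ^ L ≤ 2 ^ K * (C * (2 * 4 ^ β) * ρ ^ K) := by
      calc (2 : ℝ) ^ L ≤ C * (N : ℝ) ^ β := hLN
        _ ≤ C * (4 ^ β * (2 ^ K * ρ ^ K)) := by gcongr
        _ ≤ 2 * (C * (4 ^ β * (2 ^ K * ρ ^ K))) := by
            have h13 : (0 : ℝ) ≤ C * (4 ^ β * (2 ^ K * ρ ^ K)) := by positivity
            linarith
        _ = 2 ^ K * (C * (2 * 4 ^ β) * ρ ^ K) := by ring
    have h14 : (2 : ℝ) ^ K * (C * (2 * 4 ^ β) * ρ ^ K) ≤ 2 ^ K * (1 / 2) := by gcongr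
    have h15 : (0 : ℝ) < 2 ^ K := by positivity
    rw [pow_succ] at h9
    linarith
  have hLK' : (L : ℝ) ≤ K := by exact_mod_cast hLK
  have hL0 : (0 : ℝ) ≤ L := by positivity
  refine (E_bound hL hLK hM2 hM3 hS1 hS2).trans ?_
  -- first part
  have g1 : 128 * (L : ℝ) * 4 ^ K ≤ ε / 2 * (N : ℝ) ^ 2 := by
    have e : (4 : ℝ) ^ K = 2 ^ K * 2 ^ K := by rw [← mul_pow]; norm_num
    have h16 : (K : ℝ) ^ 2 * 4 ^ K ≤ 4 * (N : ℝ) ^ 2 := by
      have h21 := pow_le_pow_left₀ (by positivity) hKN' 2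
      calc (K : ℝ) ^ 2 * 4 ^ K = (K * 2 ^ K) ^ 2 := by rw [e]; ring
        _ ≤ (2 * (N : ℝ)) ^ 2 := h21
        _ = 4 * (N : ℝ) ^ 2 := by ring
    have h17 : 128 * (L : ℝ) * 4 ^ K ≤ 512 / K * (N : ℝ) ^ 2 := by
      rw [div_mul_eq_mul_div, le_div_iff₀ hK0]
      have h18 : (L : ℝ) * K ≤ (K : ℝ) ^ 2 := by
        rw [sq]; exact mul_le_mul_of_nonneg_right hLK' hK0.le
      have h19 : (L : ℝ) * K * 4 ^ K ≤ (K : ℝ) ^ 2 * 4 ^ K :=
        mul_le_mul_of_nonneg_right h18 (by positivity)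
      linarith
    exact h17.trans (mul_le_mul_of_nonneg_right f5 (by positivity))
  have g2 : (L : ℝ) * 4 ^ L ≤ η * N := by
    have e : (4 : ℝ) ^ L = (2 ^ L) ^ 2 := by rw [← pow_mul, mul_comm, pow_mul]; norm_num
    calc (L : ℝ) * 4 ^ L ≤ K * (C * (N : ℝ) ^ β) ^ 2 := by
          rw [e]
          gcongr
      _ = K * C ^ 2 * ((N : ℝ) ^ β) ^ 2 := by ring
      _ ≤ K * C ^ 2 * (N * (ρ⁻¹ * ρ ^ K)) := by gcongr
      _ = K * C ^ 2 * (ρ⁻¹ * ρ ^ K) * N := by ring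
      _ ≤ η * N := by gcongr
  have g3 : 8 * (2 : ℝ) ^ K ≤ η * N := by
    have h20 : 8 * (2 : ℝ) ^ K ≤ 16 / K * N := by
      rw [div_mul_eq_mul_div, le_div_iff₀ hK0]
      linarith
    exact h20.trans (mul_le_mul_of_nonneg_right f4 hNpos'.le)
  have g4 : (2 * (L : ℝ) * (K + 1) + (K + 2)) * 2 ^ L ≤ η * N := by
    calc (2 * (L : ℝ) * (K + 1) + (K + 2)) * 2 ^ L
        ≤ (2 * (K : ℝ) * (K + 1) + (K + 2)) * (C * (N : ℝ) ^ β) := by gcongr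
      _ ≤ (2 * (K : ℝ) * (K + 1) + (K + 2)) * (C * (N * (ρ⁻¹ * ρ ^ K))) := by gcongr
      _ = (2 * (K : ℝ) * (K + 1) + (K + 2)) * C * (ρ⁻¹ * ρ ^ K) * N := by ring
      _ ≤ η * N := by gcongr
  have g5 : (0 : ℝ) ≤ L * 4 ^ L + 8 * 2 ^ K + (2 * L * (K + 1) + (K + 2)) * 2 ^ L := by positivity
  have g6 : ((L : ℝ) * 4 ^ L + 8 * 2 ^ K + (2 * L * (K + 1) + (K + 2)) * 2 ^ L) ^ 2
      ≤ (3 * (η * N)) ^ 2 := by
    apply pow_le_pow_left₀ g5
    linarith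
  have g7 : 2 * (3 * (η * (N : ℝ))) ^ 2 = 18 * η ^ 2 * (N : ℝ) ^ 2 := by ring
  have g8 : 18 * η ^ 2 * (N : ℝ) ^ 2 ≤ ε / 2 * (N : ℝ) ^ 2 :=
    mul_le_mul_of_nonneg_right hη1 (by positivity)
  linarith

end Pool.Agent.Q47.Champ
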