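import Pool.Agent.Q47.Champ5

/-!
The pair counts.
-/

set_option autoImplicit false

namespace Pool.Agent.Q47.Champ

open Finset Filter Topology

/-- the distance to the nearest integer -/
noncomputable def distInt (t : ℝ) : ℝ := |t - round t|

theorem distInt_le (t : ℝ) (z : ℤ) : distInt t ≤ |t - z| := round_le t z

theorem distInt_add_int (t : ℝ) (z : ℤ) : distInt (t + z) = distInt t := by
  unfold distInt
  rw [round_add_intCast]
  push_cast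
  congr 1
  ring

theorem distInt_zero : distInt 0 = 0 := by simp [distInt]

/-- the binary Champernowne constant -/
noncomputable def α : ℝ := ∑' i : ℕ, (chDigit i : ℝ) / 2 ^ (i + 1)

/-- the shifted constants -/
noncomputable def y (n : ℕ) : ℝ := ∑' i : ℕ, (chDigit (n + i) : ℝ) / 2 ^ (i + 1)

theorem hasSum_half : HasSum (fun i : ℕ => (1 : ℝ) / 2 ^ (i + 1)) 1 := by
  have h := hasSum_geometric_two' 1
  convert h using 1
  ext i
  rw [pow_succ]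
  field_simp

theorem digit_le (n i : ℕ) : (chDigit (n + i) : ℝ) / 2 ^ (i + 1) ≤ 1 / 2 ^ (i + 1) := by
  apply div_le_div_of_nonneg_right _ (by positivity)
  exact_mod_cast chDigit_le_one (n + i)

theorem summable_y (n : ℕ) : Summable (fun i : ℕ => (chDigit (n + i) : ℝ) / 2 ^ (i + 1)) :=
  Summable.of_nonneg_of_le (fun i => by positivity) (digit_le n) hasSum_half.summable

theorem y_nonneg (n : ℕ) : 0 ≤ y n := tsum_nonneg (fun i => by positivity)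

theorem y_le_one (n : ℕ) : y n ≤ 1 := by
  unfold y
  rw [← hasSum_half.tsum_eq]
  exact (summable_y n).tsum_le_tsum (digit_le n) hasSum_half.summable

theorem two_mul_y (n : ℕ) : 2 * y n = chDigit n + y (n + 1) := by
  unfold y
  rw [(summable_y n).tsum_eq_zero_add]
  simp only [add_zero, zero_add, pow_one]
  rw [mul_add, ← tsum_mul_left]
  congr 1
  · ring
  · apply tsum_congr
    intro i
    have e : n + (i + 1) = n + 1 + i := by omega
    rw [e, pow_succ 2 (i + 1)]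
    field_simp

theorem pow_mul_y (L n : ℕ) : (2 : ℝ) ^ L * y n = W L n + y (n + L) := by
  induction L with
  | zero => simp [W_zero]
  | succ L ih =>
    rw [pow_succ, W_succ]
    have h := two_mul_y (n + L)
    push_cast
    have e : n + (L + 1) = n + L + 1 := by omega
    rw [e]
    calc (2 : ℝ) ^ L * 2 * y n = 2 * (2 ^ L * y n) := by ring
      _ = 2 * (W L n + y (n + L)) := by rw [ih]
      _ = 2 * W L n + 2 * y (n + L) := by ring
      _ = 2 * W L n + chDigit (n + L) + y (n + L + 1) := by rw [h]; ring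

theorem α_eq : α = y 0 := by
  unfold α y
  simp

/-- the doubling orbit -/
noncomputable def x (n : ℕ) : ℝ := Int.fract (2 ^ n * α)

theorem x_sub (l m : ℕ) : distInt (x l - x m) = distInt (y l - y m) := by
  have h : ∀ n, ∃ z : ℤ, x n = y n + z := by
    intro n
    unfold x
    rw [α_eq, pow_mul_y, zero_add]
    refine ⟨(W n 0 : ℤ) - ⌊((W n 0 : ℕ) : ℝ) + y n⌋, ?_⟩
    rw [Int.fract]
    push_cast
    ring
  obtain ⟨z₁, h₁⟩ := h l
  obtain ⟨z₂, h₂⟩ := h m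
  rw [h₁, h₂]
  have e : y l + z₁ - (y m + z₂) = (y l - y m) + ((z₁ - z₂ : ℤ) : ℝ) := by push_cast; ring
  rw [e, distInt_add_int]

/-- the pairs whose words differ by `δ` -/
def Pset (N L δ : ℕ) : Finset (ℕ × ℕ) :=
  (Ico 1 (N + 1) ×ˢ Ico 1 (N + 1)).filter (fun p => W L p.1 = (W L p.2 + δ) % 2 ^ L)

/-- the word counts -/
noncomputable def cnt (N L w : ℕ) : ℝ := ∑ n ∈ Ico 1 (N + 1), if W L n = w then (1 : ℝ) else 0

theorem D_eq (N L w : ℕ) : D N L w = cnt N L w - N / 2 ^ L := by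
  unfold D f cnt
  rw [sum_sub_distrib, sum_const, Nat.card_Ico, nsmul_eq_mul]
  congr 1
  have : N + 1 - 1 = N := by omega
  rw [this]
  ring

theorem sum_cnt (N L : ℕ) (F : ℕ → ℝ) :
    ∑ w ∈ range (2 ^ L), F w * cnt N L w = ∑ n ∈ Ico 1 (N + 1), F (W L n) := by
  unfold cnt
  simp_rw [mul_sum]
  rw [sum_comm]
  apply sum_congr rfl
  intro n _
  simp_rw [mul_ite, mul_one, mul_zero]
  rw [sum_ite_eq (range (2 ^ L)) (W L n) F, if_pos]
  rw [mem_range]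
  exact W_lt L n

theorem sum_D (N L : ℕ) : ∑ w ∈ range (2 ^ L), D N L w = 0 := by
  simp_rw [D_eq]
  rw [sum_sub_distrib]
  have h := sum_cnt N L (fun _ => 1)
  simp only [one_mul, sum_const, Nat.card_Ico, nsmul_eq_mul, mul_one] at h
  rw [h, sum_const, card_range, nsmul_eq_mul]
  push_cast
  field_simp
  simp

theorem sum_shift (L δ : ℕ) (F : ℕ → ℝ) :
    ∑ w ∈ range (2 ^ L), F ((w + δ) % 2 ^ L) = ∑ w ∈ range (2 ^ L), F w := by
  have h := period_shift (g := fun w => F (w % 2 ^ L)) (P := 2 ^ L) (by intro n; simp) δ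
  calc ∑ w ∈ range (2 ^ L), F ((w + δ) % 2 ^ L) = ∑ w ∈ range (2 ^ L), F ((δ + w) % 2 ^ L) := by
        simp_rw [add_comm]
    _ = ∑ w ∈ range (2 ^ L), F (w % 2 ^ L) := h
    _ = ∑ w ∈ range (2 ^ L), F w := by
        apply sum_congr rfl
        intro w hw
        rw [Nat.mod_eq_of_lt (mem_range.1 hw)]

theorem card_Pset (N L δ : ℕ) :
    ((Pset N L δ).card : ℝ) = ∑ w ∈ range (2 ^ L), cnt N L ((w + δ) % 2 ^ L) * cnt N L w := by
  rw [sum_cnt N L (fun w => cnt N L ((w + δ) % 2 ^ L))]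
  unfold Pset cnt
  rw [card_filter, sum_product_right]
  push_cast
  rfl

theorem Pset_est (N L δ : ℕ) :
    |((Pset N L δ).card : ℝ) - (N : ℝ) ^ 2 / 2 ^ L| ≤ E N L := by
  have h1 : ((Pset N L δ).card : ℝ) - (N : ℝ) ^ 2 / 2 ^ L
      = ∑ w ∈ range (2 ^ L), D N L ((w + δ) % 2 ^ L) * D N L w := by
    rw [card_Pset]
    have h2 : ∀ w ∈ range (2 ^ L), cnt N L ((w + δ) % 2 ^ L) * cnt N L w
        = D N L ((w + δ) % 2 ^ L) * D N L w + (N / 2 ^ L) * D N L ((w + δ) % 2 ^ L)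
          + (N / 2 ^ L) * D N L w + (N / 2 ^ L) ^ 2 := by
      intro w _
      rw [D_eq, D_eq]
      ring
    rw [sum_congr rfl h2, sum_add_distrib, sum_add_distrib, sum_add_distrib, ← mul_sum, ← mul_sum,
      sum_shift L δ (fun w => D N L w), sum_D, sum_const, card_range, nsmul_eq_mul]
    push_cast
    field_simp
    ring
  rw [h1]
  calc |∑ w ∈ range (2 ^ L), D N L ((w + δ) % 2 ^ L) * D N L w|
      ≤ ∑ w ∈ range (2 ^ L), |D N L ((w + δ) % 2 ^ L) * D N L w| := abs_sum_le_sum_abs _ _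
    _ ≤ ∑ w ∈ range (2 ^ L), ((1 / 2) * D N L ((w + δ) % 2 ^ L) ^ 2 + (1 / 2) * D N L w ^ 2) := by
        apply sum_le_sum
        intro w _
        rw [abs_le]
        constructor
        · nlinarith [sq_nonneg (D N L ((w + δ) % 2 ^ L) + D N L w)]
        · nlinarith [sq_nonneg (D N L ((w + δ) % 2 ^ L) - D N L w)]
    _ = E N L := by
        rw [sum_add_distrib, ← mul_sum, ← mul_sum, sum_shift L δ (fun w => D N L w ^ 2)]
        unfold E
        ring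

theorem E_nonneg (N L : ℕ) : 0 ≤ E N L := sum_nonneg (fun _ _ => sq_nonneg _)

/-- the pairs at distance at most `δ₀`, with the diagonal -/
noncomputable def Q (N : ℕ) (δ₀ : ℝ) : Finset (ℕ × ℕ) :=
  (Ico 1 (N + 1) ×ˢ Ico 1 (N + 1)).filter (fun p => distInt (y p.1 - y p.2) ≤ δ₀)

theorem W_of_close {L l m q : ℕ} {δ₀ : ℝ} (h : distInt (y l - y m) ≤ δ₀)
    (hq : δ₀ * 2 ^ L + 1 < (q : ℝ) + 1) :
    ∃ j ∈ range (2 * q + 1), W L l = (W L m + (j + q * (2 ^ L - 1))) % 2 ^ L := by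
  obtain ⟨z, hz⟩ : ∃ z : ℤ, z = round (y l - y m) := ⟨_, rfl⟩
  unfold distInt at h
  rw [← hz] at h
  have hp : (0 : ℝ) < 2 ^ L := by positivity
  have e1 := pow_mul_y L l
  have e2 := pow_mul_y L m
  obtain ⟨d, hd⟩ : ∃ d : ℤ, d = (W L l : ℤ) - W L m - z * 2 ^ L := ⟨_, rfl⟩
  have hdr : (d : ℝ) = 2 ^ L * (y l - y m - z) - (y (l + L) - y (m + L)) := by
    rw [hd]
    push_cast
    rw [mul_sub, mul_sub, e1, e2]
    ring
  have hy1 := y_nonneg (l + L)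
  have hy2 := y_nonneg (m + L)
  have hy3 := y_le_one (l + L)
  have hy4 := y_le_one (m + L)
  rw [abs_le] at h
  have hd1 : (d : ℝ) < q + 1 := by
    rw [hdr]
    have : 2 ^ L * (y l - y m - z) ≤ 2 ^ L * δ₀ := mul_le_mul_of_nonneg_left h.2 hp.le
    linarith
  have hd2 : -((q : ℝ) + 1) < d := by
    rw [hdr]
    have : 2 ^ L * (-δ₀) ≤ 2 ^ L * (y l - y m - z) := mul_le_mul_of_nonneg_left h.1 hp.le
    linarith
  have hd3 : d < q + 1 := by exact_mod_cast hd1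
  have hd4 : -((q : ℤ) + 1) < d := by exact_mod_cast hd2
  refine ⟨(d + q).toNat, ?_, ?_⟩
  · rw [mem_range]
    omega
  · have hlt := W_lt L l
    have h2L : 1 ≤ 2 ^ L := Nat.one_le_two_pow
    have e3 : (((W L m + ((d + q).toNat + q * (2 ^ L - 1))) % 2 ^ L : ℕ) : ℤ) = (W L l : ℤ) := by
      push_cast
      rw [Nat.cast_sub h2L]
      push_cast
      rw [Int.toNat_of_nonneg (by omega)]
      have e4 : (W L m : ℤ) + (d + q + q * (2 ^ L - 1)) = W L l + 2 ^ L * (q - z) := by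
        rw [hd]; ring
      rw [e4, Int.add_mul_emod_self_left]
      exact Int.emod_eq_of_lt (by positivity) (by exact_mod_cast hlt)
    exact_mod_cast e3.symm

theorem close_of_W {L l m q j : ℕ} {δ₀ : ℝ} (hj : j < 2 * q + 1)
    (hW : W L l = (W L m + (j + q * (2 ^ L - 1))) % 2 ^ L)
    (hq : (q : ℝ) + 1 ≤ δ₀ * 2 ^ L) : distInt (y l - y m) ≤ δ₀ := by
  have hp : (0 : ℝ) < 2 ^ L := by positivity
  have e1 := pow_mul_y L l
  have e2 := pow_mul_y L m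
  have h2L : 1 ≤ 2 ^ L := Nat.one_le_two_pow
  obtain ⟨t, ht⟩ : ∃ t : ℤ, (W L m : ℤ) + (j - q) = W L l + 2 ^ L * t := by
    have h1 := Nat.div_add_mod (W L m + (j + q * (2 ^ L - 1))) (2 ^ L)
    rw [← hW] at h1
    refine ⟨(((W L m + (j + q * (2 ^ L - 1))) / 2 ^ L : ℕ) : ℤ) - q, ?_⟩
    have h2 : ((2 ^ L * ((W L m + (j + q * (2 ^ L - 1))) / 2 ^ L) + W L l : ℕ) : ℤ)
        = ((W L m + (j + q * (2 ^ L - 1)) : ℕ) : ℤ) := by rw [h1]
    rw [Nat.cast_add, Nat.cast_mul] at h2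
    rw [Nat.cast_add, Nat.cast_add, Nat.cast_mul, Nat.cast_sub h2L] at h2
    push_cast at h2 ⊢
    linear_combination -h2
  refine (distInt_le _ (-t)).trans ?_
  have h3 : (2 : ℝ) ^ L * (y l - y m - ((-t : ℤ) : ℝ))
      = (j : ℝ) - q + (y (l + L) - y (m + L)) := by
    have h4 : ((W L m : ℤ) + (j - q) : ℝ) = W L l + 2 ^ L * t := by exact_mod_cast ht
    push_cast at h4 ⊢
    rw [mul_sub, mul_sub, e1, e2]
    linear_combination -h4
  have hy1 := y_nonneg (l + L)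
  have hy2 := y_nonneg (m + L)
  have hy3 := y_le_one (l + L)
  have hy4 := y_le_one (m + L)
  have hj' : (j : ℝ) ≤ 2 * q := by
    have : j ≤ 2 * q := by omega
    exact_mod_cast this
  have hj0 : (0 : ℝ) ≤ j := by positivity
  have h5 : |(2 : ℝ) ^ L * (y l - y m - ((-t : ℤ) : ℝ))| ≤ δ₀ * 2 ^ L := by
    rw [h3, abs_le]
    constructor <;> linarith
  rw [abs_mul, abs_of_pos hp, mul_comm] at h5
  exact le_of_mul_le_mul_right h5 hp

theorem Q_upper {N L q : ℕ} {δ₀ : ℝ} (hq : δ₀ * 2 ^ L + 1 < (q : ℝ) + 1) :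
    ((Q N δ₀).card : ℝ) ≤ (2 * q + 1) * ((N : ℝ) ^ 2 / 2 ^ L + E N L) := by
  have h1 : Q N δ₀ ⊆ (range (2 * q + 1)).biUnion (fun j => Pset N L (j + q * (2 ^ L - 1))) := by
    intro p hp
    unfold Q at hp
    rw [mem_filter] at hp
    obtain ⟨j, hj, hW⟩ := W_of_close (L := L) (q := q) hp.2 hq
    rw [mem_biUnion]
    refine ⟨j, hj, ?_⟩
    unfold Pset
    rw [mem_filter]
    exact ⟨hp.1, hW⟩
  have h2 : (Q N δ₀).card ≤ ∑ j ∈ range (2 * q + 1), (Pset N L (j + q * (2 ^ L - 1))).card :=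
    (card_le_card h1).trans card_biUnion_le
  have h3 : ((Q N δ₀).card : ℝ)
      ≤ ∑ j ∈ range (2 * q + 1), ((Pset N L (j + q * (2 ^ L - 1))).card : ℝ) := by
    exact_mod_cast h2
  refine h3.trans ?_
  calc ∑ j ∈ range (2 * q + 1), ((Pset N L (j + q * (2 ^ L - 1))).card : ℝ)
      ≤ ∑ j ∈ range (2 * q + 1), ((N : ℝ) ^ 2 / 2 ^ L + E N L) := by
        apply sum_le_sum
        intro j _
        have h4 := (abs_le.1 (Pset_est N L (j + q * (2 ^ L - 1)))).2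
        linarith
    _ = (2 * q + 1) * ((N : ℝ) ^ 2 / 2 ^ L + E N L) := by
        rw [sum_const, card_range, nsmul_eq_mul]
        push_cast
        ring

theorem Q_lower {N L q : ℕ} {δ₀ : ℝ} (hq : (q : ℝ) + 1 ≤ δ₀ * 2 ^ L) (hqL : 2 * q < 2 ^ L) :
    (2 * q + 1) * ((N : ℝ) ^ 2 / 2 ^ L - E N L) ≤ ((Q N δ₀).card : ℝ) := by
  have h1 : (range (2 * q + 1)).biUnion (fun j => Pset N L (j + q * (2 ^ L - 1))) ⊆ Q N δ₀ := by
    intro p hp
    rw [mem_biUnion] at hp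
    obtain ⟨j, hj, hp⟩ := hp
    unfold Pset at hp
    rw [mem_filter] at hp
    unfold Q
    rw [mem_filter]
    exact ⟨hp.1, close_of_W (mem_range.1 hj) hp.2 hq⟩
  have h2 : ∑ j ∈ range (2 * q + 1), (Pset N L (j + q * (2 ^ L - 1))).card ≤ (Q N δ₀).card := by
    rw [← card_biUnion]
    · exact card_le_card h1
    · intro i hi j hj hij
      change Disjoint (Pset N L (i + q * (2 ^ L - 1))) (Pset N L (j + q * (2 ^ L - 1)))
      rw [Finset.disjoint_left]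
      intro p hp1 hp2
      unfold Pset at hp1 hp2
      rw [mem_filter] at hp1 hp2
      have h3 : (W L p.2 + (i + q * (2 ^ L - 1))) % 2 ^ L
          = (W L p.2 + (j + q * (2 ^ L - 1))) % 2 ^ L := by rw [← hp1.2, ← hp2.2]
      have h4 : (W L p.2 + (i + q * (2 ^ L - 1))) ≡ (W L p.2 + (j + q * (2 ^ L - 1))) [MOD 2 ^ L] := h3
      have h5 := Nat.ModEq.add_left_cancel' _ h4
      have h6 := Nat.ModEq.add_right_cancel' _ h5
      have hi' := mem_range.1 hi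
      have hj' := mem_range.1 hj
      apply hij
      exact Nat.ModEq.eq_of_lt_of_lt h6 (by omega) (by omega)
  have h3 : ∑ j ∈ range (2 * q + 1), ((Pset N L (j + q * (2 ^ L - 1))).card : ℝ)
      ≤ ((Q N δ₀).card : ℝ) := by
    exact_mod_cast h2
  refine le_trans ?_ h3
  calc (2 * q + 1) * ((N : ℝ) ^ 2 / 2 ^ L - E N L)
      = ∑ j ∈ range (2 * q + 1), ((N : ℝ) ^ 2 / 2 ^ L - E N L) := by
        rw [sum_const, card_range, nsmul_eq_mul]
        push_cast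
        ring
    _ ≤ _ := by
        apply sum_le_sum
        intro j _
        have h4 := (abs_le.1 (Pset_est N L (j + q * (2 ^ L - 1)))).1
        linarith

theorem Q_est {N L : ℕ} {δ₀ : ℝ} (hδ0 : 0 ≤ δ₀) (hδ1 : δ₀ ≤ 1 / 2) :
    |((Q N δ₀).card : ℝ) - 2 * δ₀ * (N : ℝ) ^ 2|
      ≤ 3 * (N : ℝ) ^ 2 / 2 ^ L + (2 * (δ₀ * 2 ^ L) + 3) * E N L := by
  obtain ⟨τ, hτ⟩ : ∃ τ, τ = δ₀ * 2 ^ L := ⟨_, rfl⟩
  have hp : (0 : ℝ) < 2 ^ L := by positivity
  have hτ0 : 0 ≤ τ := by rw [hτ]; positivity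
  have hE := E_nonneg N L
  have hA : (0 : ℝ) ≤ (N : ℝ) ^ 2 / 2 ^ L := by positivity
  have e1 : 2 * δ₀ * (N : ℝ) ^ 2 = 2 * τ * ((N : ℝ) ^ 2 / 2 ^ L) := by
    rw [hτ]; field_simp
  have hf1 : (⌊τ⌋₊ : ℝ) ≤ τ := Nat.floor_le hτ0
  have hf2 : τ < ⌊τ⌋₊ + 1 := Nat.lt_floor_add_one τ
  rw [e1, ← hτ, abs_le]
  constructor
  · rcases Nat.eq_zero_or_pos ⌊τ⌋₊ with h0 | h0
    · rw [h0] at hf2
      push_cast at hf2
      have h1 : (0 : ℝ) ≤ ((Q N δ₀).card : ℝ) := by positivity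
      have h2 : (0 : ℝ) ≤ (2 * τ + 3) * E N L := by positivity
      have h3 : 2 * τ * ((N : ℝ) ^ 2 / 2 ^ L) ≤ 3 * (N : ℝ) ^ 2 / 2 ^ L := by
        have : 3 * (N : ℝ) ^ 2 / 2 ^ L = 3 * ((N : ℝ) ^ 2 / 2 ^ L) := by ring
        rw [this]
        apply mul_le_mul_of_nonneg_right _ hA
        linarith
      linarith
    · obtain ⟨q, hq⟩ : ∃ q, ⌊τ⌋₊ = q + 1 := ⟨⌊τ⌋₊ - 1, by omega⟩
      rw [hq] at hf1 hf2
      push_cast at hf1 hf2
      have hqL : 2 * q < 2 ^ L := by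
        have h4 : 2 * ((q : ℝ) + 1) ≤ 2 ^ L := by
          have : τ ≤ 1 / 2 * 2 ^ L := by rw [hτ]; exact mul_le_mul_of_nonneg_right hδ1 hp.le
          linarith
        have h5 : 2 * (q + 1) ≤ 2 ^ L := by exact_mod_cast h4
        omega
      have h1 := Q_lower (N := N) (L := L) (q := q) (δ₀ := δ₀) (by rw [← hτ]; exact hf1) hqL
      have h2 : (2 * τ - 3) * ((N : ℝ) ^ 2 / 2 ^ L) ≤ (2 * (q : ℝ) + 1) * ((N : ℝ) ^ 2 / 2 ^ L) :=
        mul_le_mul_of_nonneg_right (by linarith) hA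
      have h3 : (2 * (q : ℝ) + 1) * E N L ≤ (2 * τ + 3) * E N L :=
        mul_le_mul_of_nonneg_right (by linarith) hE
      have e2 : 3 * (N : ℝ) ^ 2 / 2 ^ L = 3 * ((N : ℝ) ^ 2 / 2 ^ L) := by ring
      rw [e2]
      linarith
  · have h1 := Q_upper (N := N) (L := L) (q := ⌊τ⌋₊ + 1) (δ₀ := δ₀)
      (by rw [← hτ]; push_cast; linarith)
    push_cast at h1
    have h2 : (2 * ((⌊τ⌋₊ : ℝ) + 1) + 1) * ((N : ℝ) ^ 2 / 2 ^ L + E N L)
        ≤ (2 * τ + 3) * ((N : ℝ) ^ 2 / 2 ^ L + E N L) :=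
      mul_le_mul_of_nonneg_right (by linarith) (by positivity)
    have e2 : 3 * (N : ℝ) ^ 2 / 2 ^ L = 3 * ((N : ℝ) ^ 2 / 2 ^ L) := by ring
    rw [e2]
    linarith

/-- the pairs of distinct indices -/
noncomputable def R (N : ℕ) (s β : ℝ) : ℕ :=
  ((Icc 1 N ×ˢ Icc 1 N).filter
    (fun p => p.1 ≠ p.2 ∧ distInt (x p.1 - x p.2) ≤ s * (N : ℝ) ^ (-β))).card

theorem R_eq {N : ℕ} {s β : ℝ} (hs : 0 ≤ s) :
    (R N s β : ℝ) = ((Q N (s * (N : ℝ) ^ (-β))).card : ℝ) - N := by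
  have h0 : (0 : ℝ) ≤ s * (N : ℝ) ^ (-β) := by positivity
  have hI : Icc 1 N = Ico 1 (N + 1) := by
    ext a; simp only [mem_Icc, mem_Ico]; omega
  have h1 : Q N (s * (N : ℝ) ^ (-β)) = ((Icc 1 N ×ˢ Icc 1 N).filter
      (fun p => p.1 ≠ p.2 ∧ distInt (x p.1 - x p.2) ≤ s * (N : ℝ) ^ (-β))) ∪
      (Icc 1 N).image (fun n => (n, n)) := by
    unfold Q
    rw [hI]
    ext ⟨l, m⟩
    simp only [mem_filter, mem_union, mem_image, mem_product, Prod.mk.injEq, x_sub]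
    constructor
    · rintro ⟨hm, hd⟩
      by_cases h : l = m
      · right
        exact ⟨l, hm.1, rfl, h⟩
      · left
        exact ⟨hm, h, hd⟩
    · rintro (⟨hm, _, hd⟩ | ⟨n, hn, rfl, rfl⟩)
      · exact ⟨hm, hd⟩
      · refine ⟨⟨hn, hn⟩, ?_⟩
        rw [sub_self, distInt_zero]
        exact h0
  rw [h1, card_union_of_disjoint, card_image_of_injective]
  · unfold R
    rw [Nat.card_Icc]
    push_cast
    simp
  · intro a b hab
    simpa using hab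
  · rw [Finset.disjoint_left]
    intro p hp hp'
    rw [mem_filter] at hp
    rw [mem_image] at hp'
    obtain ⟨n, _, rfl⟩ := hp'
    exact hp.2.1 rfl

theorem main {β : ℝ} (hβ0 : 0 < β) (hβ : β < 1 / 2) {s : ℝ} (hs : 0 ≤ s) :
    Tendsto (fun N : ℕ => (N : ℝ) ^ (β - 2) * (R N s β : ℝ)) atTop (𝓝 (2 * s)) := by
  rw [Metric.tendsto_atTop]
  intro κ hκ
  -- choose the scale
  obtain ⟨r, hr⟩ : ∃ r : ℕ, 3 / (2 : ℝ) ^ r < κ / 4 := by
    obtain ⟨r, hr⟩ := exists_pow_lt_of_lt_one (show (0 : ℝ) < κ / 12 by positivity)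
      (by norm_num : (1 / 2 : ℝ) < 1)
    refine ⟨r, ?_⟩
    rw [one_div, inv_pow] at hr
    rw [div_eq_mul_inv]
    linarith
  obtain ⟨ε, hε0, hε⟩ : ∃ ε : ℝ, 0 < ε ∧ (2 * (s * (2 * (2 * 2 ^ r))) + 3) * ε ≤ κ / 4 := by
    refine ⟨κ / 4 / (2 * (s * (2 * (2 * 2 ^ r))) + 3), by positivity, ?_⟩
    rw [mul_div_cancel₀]
    positivity
  obtain ⟨N₀, hN₀⟩ := main_L2 hβ0 hβ (C := 2 * (2 * 2 ^ r)) (by positivity) hε0
  have T1 : ∀ᶠ N : ℕ in atTop, (N : ℝ) ^ (β - 1) < κ / 4 := by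
    have h1 := (tendsto_rpow_neg_atTop (by linarith : 0 < 1 - β)).comp tendsto_natCast_atTop_atTop
    have h2 := h1.eventually (gt_mem_nhds (show (0 : ℝ) < κ / 4 by positivity))
    filter_upwards [h2] with N hN
    simp only [Function.comp] at hN
    rwa [neg_sub] at hN
  have T2 : ∀ᶠ N : ℕ in atTop, s * (N : ℝ) ^ (-β) < 1 / 2 := by
    have h1 := ((tendsto_rpow_neg_atTop hβ0).comp tendsto_natCast_atTop_atTop).const_mul s
    rw [mul_zero] at h1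
    exact h1.eventually (gt_mem_nhds (show (0 : ℝ) < 1 / 2 by norm_num))
  obtain ⟨N₁, hN₁⟩ := eventually_atTop.1 ((T1.and T2).and (eventually_ge_atTop (max N₀ 1)))
  refine ⟨N₁, fun N hN => ?_⟩
  obtain ⟨⟨t1, t2⟩, t3⟩ := hN₁ N hN
  have hNN₀ : N₀ ≤ N := (le_max_left _ _).trans t3
  have hN1 : 1 ≤ N := (le_max_right _ _).trans t3
  have hNpos : (0 : ℝ) < N := by exact_mod_cast hN1
  have hN1' : (1 : ℝ) ≤ N := by exact_mod_cast hN1
  have hNβ1 : (1 : ℝ) ≤ (N : ℝ) ^ β := Real.one_le_rpow hN1' hβ0.le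
  have hNβ0 : (0 : ℝ) < (N : ℝ) ^ β := by positivity
  -- the length of the words
  obtain ⟨L, hL1, hL2⟩ := exists_nat_pow_near (x := 2 * 2 ^ r * (N : ℝ) ^ β) (y := 2)
    (by
      have h1 : (1 : ℝ) ≤ 2 ^ r := one_le_pow₀ (by norm_num)
      nlinarith) (by norm_num)
  -- `2 ^ L ≤ 2 * 2 ^ r * N ^ β < 2 ^ (L + 1)`
  have hL : 1 ≤ L := by
    by_contra hcon
    have hL0 : L = 0 := by omega
    rw [hL0] at hL2
    have h1 : (1 : ℝ) ≤ 2 ^ r := one_le_pow₀ (by norm_num)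
    norm_num at hL2
    nlinarith
  have hLr : (2 : ℝ) ^ r * (N : ℝ) ^ β ≤ 2 ^ L := by
    rw [pow_succ] at hL2
    linarith
  have hE := hN₀ N hNN₀ L hL (by linarith)
  have hp : (0 : ℝ) < 2 ^ L := by positivity
  have hδ0 : (0 : ℝ) ≤ s * (N : ℝ) ^ (-β) := by positivity
  have hQ := Q_est (N := N) (L := L) hδ0 t2.le
  obtain ⟨δ₀, hδ₀⟩ : ∃ δ₀, δ₀ = s * (N : ℝ) ^ (-β) := ⟨_, rfl⟩
  rw [← hδ₀] at hQ hδ0
  have hpow : (N : ℝ) ^ (β - 2) * (N : ℝ) ^ 2 = (N : ℝ) ^ β := by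
    rw [← Real.rpow_natCast, ← Real.rpow_add hNpos]
    congr 1
    push_cast
    ring
  have hpow1 : (N : ℝ) ^ (β - 2) * N = (N : ℝ) ^ (β - 1) := by
    rw [← Real.rpow_add_one hNpos.ne']
    congr 1
    ring
  have hcancel : (N : ℝ) ^ (-β) * (N : ℝ) ^ β = 1 := by
    rw [← Real.rpow_add hNpos]
    simp
  have hP0 : (0 : ℝ) < (N : ℝ) ^ (β - 2) := by positivity
  rw [Real.dist_eq, R_eq hs, ← hδ₀]
  have e1 : (N : ℝ) ^ (β - 2) * (((Q N δ₀).card : ℝ) - N) - 2 * s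
      = (N : ℝ) ^ (β - 2) * (((Q N δ₀).card : ℝ) - 2 * δ₀ * (N : ℝ) ^ 2) - (N : ℝ) ^ (β - 1) := by
    have e2 : (N : ℝ) ^ (β - 2) * (2 * δ₀ * (N : ℝ) ^ 2) = 2 * s := by
      calc (N : ℝ) ^ (β - 2) * (2 * δ₀ * (N : ℝ) ^ 2)
          = 2 * δ₀ * ((N : ℝ) ^ (β - 2) * (N : ℝ) ^ 2) := by ring
        _ = 2 * s * ((N : ℝ) ^ (-β) * (N : ℝ) ^ β) := by rw [hpow, hδ₀]; ring
        _ = 2 * s := by rw [hcancel, mul_one]
    rw [mul_sub, mul_sub, e2, hpow1]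
    ring
  rw [e1]
  have b1 : |(N : ℝ) ^ (β - 2) * (((Q N δ₀).card : ℝ) - 2 * δ₀ * (N : ℝ) ^ 2)|
      ≤ κ / 4 + κ / 4 := by
    rw [abs_mul, abs_of_pos hP0]
    refine (mul_le_mul_of_nonneg_left hQ hP0.le).trans ?_
    rw [mul_add]
    apply add_le_add
    · calc (N : ℝ) ^ (β - 2) * (3 * (N : ℝ) ^ 2 / 2 ^ L)
          = 3 * ((N : ℝ) ^ (β - 2) * (N : ℝ) ^ 2) / 2 ^ L := by ring
        _ = 3 * (N : ℝ) ^ β / 2 ^ L := by rw [hpow]
        _ ≤ 3 / 2 ^ r := by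
            rw [div_le_div_iff₀ hp (by positivity)]
            linarith
        _ ≤ κ / 4 := hr.le
    · have c1 : 2 * (δ₀ * 2 ^ L) + 3 ≤ 2 * (s * (2 * (2 * 2 ^ r))) + 3 := by
        have c2 : δ₀ * 2 ^ L ≤ s * (2 * (2 * 2 ^ r)) := by
          calc δ₀ * 2 ^ L ≤ δ₀ * (2 * 2 ^ r * (N : ℝ) ^ β) := mul_le_mul_of_nonneg_left hL1 hδ0
            _ = s * (2 * 2 ^ r) * ((N : ℝ) ^ (-β) * (N : ℝ) ^ β) := by rw [hδ₀]; ring
            _ = s * (2 * 2 ^ r) := by rw [hcancel, mul_one]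
            _ ≤ s * (2 * (2 * 2 ^ r)) := by
                have : (0 : ℝ) ≤ s * (2 * 2 ^ r) := by positivity
                linarith
        linarith
      have c3 : (N : ℝ) ^ (β - 2) * E N L ≤ ε := by
        have c4 : E N L ≤ ε * (N : ℝ) ^ 2 / 2 ^ L := by
          rw [le_div_iff₀ hp]; exact hE
        calc (N : ℝ) ^ (β - 2) * E N L ≤ (N : ℝ) ^ (β - 2) * (ε * (N : ℝ) ^ 2 / 2 ^ L) :=
              mul_le_mul_of_nonneg_left c4 hP0.le
          _ = ε * ((N : ℝ) ^ (β - 2) * (N : ℝ) ^ 2) / 2 ^ L := by ring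
          _ = ε * (N : ℝ) ^ β / 2 ^ L := by rw [hpow]
          _ ≤ ε := by
              rw [div_le_iff₀ hp]
              apply mul_le_mul_of_nonneg_left _ hε0.le
              have h1 : (1 : ℝ) ≤ 2 ^ r := one_le_pow₀ (by norm_num)
              have h2 := mul_le_mul_of_nonneg_right h1 hNβ0.le
              linarith
      have c5 : (0 : ℝ) ≤ 2 * (δ₀ * 2 ^ L) + 3 := by positivity
      calc (N : ℝ) ^ (β - 2) * ((2 * (δ₀ * 2 ^ L) + 3) * E N L)
          = (2 * (δ₀ * 2 ^ L) + 3) * ((N : ℝ) ^ (β - 2) * E N L) := by ring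
        _ ≤ (2 * (δ₀ * 2 ^ L) + 3) * ε := mul_le_mul_of_nonneg_left c3 c5
        _ ≤ (2 * (s * (2 * (2 * 2 ^ r))) + 3) * ε := mul_le_mul_of_nonneg_right c1 hε0.le
        _ ≤ κ / 4 := hε
  have b2 : |(N : ℝ) ^ (β - 1)| < κ / 4 := by
    rw [abs_of_pos (by positivity)]
    exact t1
  calc |(N : ℝ) ^ (β - 2) * (((Q N δ₀).card : ℝ) - 2 * δ₀ * (N : ℝ) ^ 2) - (N : ℝ) ^ (β - 1)|
      ≤ |(N : ℝ) ^ (β - 2) * (((Q N δ₀).card : ℝ) - 2 * δ₀ * (N : ℝ) ^ 2)|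
        + |(N : ℝ) ^ (β - 1)| := abs_sub _ _
    _ < κ := by linarith

end Pool.Agent.Q47.Champ
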