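import Mathlib
import Pool.Agent.TH899.UG.ExW
import Pool.Agent.W25.QL.Main
import Pool.Agent.W25.QL.Count

/-!
Uniform prime tuples: a positive proportion of the tuples of elements of every admissible set of
shifts in `[0, x]` is simultaneously prime for many `n ≤ x`.
-/

set_option autoImplicit false

namespace Pool.Agent.Q47.UKT

open Finset Filter Topology
open Pool.Agent.W25.QL (Fails QProp main_gen count_pow count_pair)

/-- the proportion -/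
noncomputable def dens (c : ℝ) (k : ℕ) : ℝ := if k = 1 then 1 / 3 else (1 / (4 - c)) ^ k

/-- the number of `n ≤ x` with all `n + f` prime, `f ∈ F` -/
noncomputable def cntS (F : Finset ℕ) (x : ℝ) : ℕ :=
  {n : ℕ | (∀ f ∈ F, (n + f).Prime) ∧ (n : ℝ) ≤ x}.ncard

theorem cntS_fin (F : Finset ℕ) (x : ℝ) :
    {n : ℕ | (∀ f ∈ F, (n + f).Prime) ∧ (n : ℝ) ≤ x}.Finite := by
  apply (Set.finite_Iic ⌊x⌋₊).subset
  rintro n ⟨_, h⟩
  rw [Set.mem_Iic]
  exact Nat.le_floor h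

theorem cntS_anti {F F' : Finset ℕ} (h : F' ⊆ F) (x : ℝ) : cntS F x ≤ cntS F' x := by
  unfold cntS
  apply Set.ncard_le_ncard
  · rintro n ⟨h1, h2⟩
    exact ⟨fun f hf => h1 f (h hf), h2⟩
  · exact cntS_fin F' x

theorem dens_le (c : ℝ) (hc0 : 0 < c) (hc1 : c < 1) (k : ℕ) : dens c k ≤ 1 := by
  unfold dens
  split_ifs
  · norm_num
  · apply pow_le_one₀
    · exact div_nonneg zero_le_one (by linarith)
    · rw [div_le_one (by linarith)]
      linarith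

open Classical in
theorem hcount (c : ℝ) (hc0 : 0 < c) (hc1 : c < 1) (k : ℕ) (ε : ℝ) (hε : 0 < ε) :
    ∃ T : ℕ, 1 ≤ T ∧ ∀ C : Finset (Finset (Fin T)),
      (∀ S ∈ C, ∀ S', S' ⊆ S → S' ∈ C) → (∀ m, ¬ Fails (4 - c) C m) →
      (dens c k - ε) * (T : ℝ) ^ (k + 1) ≤ ((univ.filter (fun u : Fin (k + 1) → Fin T =>
        Function.Injective u ∧ univ.image u ∈ C)).card : ℝ) := by
  by_cases hk : k = 1
  · subst hk
    unfold dens
    rw [if_pos rfl]
    exact count_pair (by linarith) (by linarith) ε hε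
  · unfold dens
    rw [if_neg hk]
    exact count_pow (by linarith) k ε hε

/-- large primes are no obstruction -/
theorem adm_all {T K : ℕ} (H : Fin T → Fin K → ℕ)
    (hH : ∀ p : ℕ, p.Prime → p ≤ T * K → ∃ r : ℕ, ∀ g i, ¬ H g i ≡ r [MOD p]) (p : ℕ)
    (hp : p.Prime) : ∃ r : ℕ, ∀ g i, ¬ H g i ≡ r [MOD p] := by
  classical
  rcases le_or_gt p (T * K) with h | h
  · exact hH p hp h
  · have h1 : ((univ : Finset (Fin T × Fin K)).image (fun x => H x.1 x.2 % p)).card < p := by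
      refine lt_of_le_of_lt card_image_le ?_
      rw [card_univ, Fintype.card_prod, Fintype.card_fin, Fintype.card_fin]
      exact h
    obtain ⟨r, hr1, hr2⟩ : ∃ r ∈ range p,
        r ∉ (univ : Finset (Fin T × Fin K)).image (fun x => H x.1 x.2 % p) := by
      by_contra hcon
      push Not at hcon
      have h2 : range p ⊆ (univ : Finset (Fin T × Fin K)).image (fun x => H x.1 x.2 % p) := hcon
      have h3 := card_le_card h2
      rw [card_range] at h3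
      omega
    refine ⟨r, fun g i hgi => hr2 ?_⟩
    rw [mem_image]
    refine ⟨(g, i), mem_univ _, ?_⟩
    rw [mem_range] at hr1
    have h4 : H g i % p = r % p := hgi
    rw [Nat.mod_eq_of_lt hr1] at h4
    exact h4

/-- the uniform coloured Maynard-Tao theorem for shifts, `T / lam` of the classes -/
def LamU (lam : ℝ) : Prop := ∀ T : ℕ, ∃ K : ℕ, 1 ≤ K ∧ (1 ≤ T →
    ∀ η : ℝ, 0 < η → ∀ᶠ x : ℝ in atTop, ∀ H : Fin T → Fin K → ℕ,
    Function.Injective (fun x : Fin T × Fin K => H x.1 x.2) →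
    (∀ g i, (H g i : ℝ) ≤ x) →
    (∀ p : ℕ, p.Prime → p ≤ T * K → ∃ r : ℕ, ∀ g i, ¬ H g i ≡ r [MOD p]) →
    ∃ (S : Finset (Fin T)) (c : Fin T → Fin K), (T : ℝ) ≤ lam * (S.card : ℝ) ∧ x ^ (1 - η) ≤
      (cntS (S.image (fun g => H g (c g))) x : ℝ))

theorem lamU : ∃ c : ℝ, 0 < c ∧ c < 1 ∧ LamU (4 - c) := by
  obtain ⟨c, hc0, hc1, h⟩ := Pool.Agent.TH899.UG.NW.exactW
  refine ⟨c, hc0, hc1, ?_⟩
  intro T
  rcases Nat.eq_zero_or_pos T with hT | hT
  · subst hT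
    exact ⟨1, le_rfl, fun h => absurd h (by norm_num)⟩
  -- the largest `M` with `(4 - c) M < T`
  have h4c : (0 : ℝ) < 4 - c := by linarith
  obtain ⟨M, hM1, hM2⟩ : ∃ M : ℕ, (4 - c) * M < T ∧ (T : ℝ) ≤ (4 - c) * (M + 1) := by
    have hT' : (0 : ℝ) < T := by exact_mod_cast hT
    obtain ⟨m, hm⟩ : ∃ m : ℕ, m = ⌈(T : ℝ) / (4 - c)⌉₊ := ⟨_, rfl⟩
    have hpos : 0 < m := by rw [hm]; exact Nat.ceil_pos.2 (by positivity)
    refine ⟨m - 1, ?_, ?_⟩
    · have h1 : ((m - 1 : ℕ) : ℝ) < (T : ℝ) / (4 - c) := by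
        rw [← Nat.lt_ceil, ← hm]; omega
      rw [lt_div_iff₀ h4c] at h1
      linarith
    · have h1 : (T : ℝ) / (4 - c) ≤ m := by rw [hm]; exact Nat.le_ceil _
      rw [div_le_iff₀ h4c] at h1
      have h2 : ((m - 1 : ℕ) : ℝ) = (m : ℝ) - 1 := by
        rw [Nat.cast_sub hpos]; norm_num
      rw [h2]
      linarith
  obtain ⟨K, hK, hKh⟩ := h (1 / 8) (1 / 4) le_rfl (by norm_num) le_rfl T M hT hM1
  refine ⟨K, hK, fun _ η hη => ?_⟩
  have h5 := hKh 1 (η / 2) (by positivity)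
  have h6 : ∀ᶠ x : ℝ in atTop, ∀ a b : Fin T → Fin K → ℤ, (∀ g i, a g i ≠ 0) →
      (∀ g i, |a g i| ≤ ((1 : ℕ) : ℤ)) →
      (∀ g i, 5 * |b g i| ≤ 6 * ((⌈x⌉₊ : ℕ) : ℤ)) →
      (∀ g i, ∀ y : ℝ, ((⌈x⌉₊ : ℕ) : ℝ) / 16 ≤ y → y ≤ ((⌈x⌉₊ : ℕ) : ℝ) / 2 →
        ((⌈x⌉₊ : ℕ) : ℝ) / 30 ≤ a g i * y + b g i) →
      Function.Injective (fun x : Fin T × Fin K => (a x.1 x.2, b x.1 x.2)) →
      (∀ p : ℕ, p.Prime → ∃ n : ℤ, ∀ g i, ¬ ((p : ℤ) ∣ a g i * n + b g i)) →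
      ∃ (S : Finset (Fin T)) (σ : Fin T → Fin K), M + 1 ≤ S.card ∧
        ((⌈x⌉₊ : ℕ) : ℝ) ^ (1 - η / 2) ≤ (((Icc 1 ⌈x⌉₊).filter (fun n : ℕ =>
          1 / 8 * ((⌈x⌉₊ : ℕ) : ℝ) ≤ n ∧ (n : ℝ) ≤ 1 / 4 * ((⌈x⌉₊ : ℕ) : ℝ) ∧
          ∀ g ∈ S, (a g (σ g) * n + b g (σ g)).toNat.Prime)).card : ℝ) :=
    tendsto_nat_ceil_atTop.eventually h5
  filter_upwards [h6, eventually_ge_atTop (4 : ℝ)] with x hx hx4 H hinj hHx hadm
  have hceil : x ≤ ((⌈x⌉₊ : ℕ) : ℝ) := Nat.le_ceil x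
  have hceil2 : ((⌈x⌉₊ : ℕ) : ℝ) < x + 1 := Nat.ceil_lt_add_one (by linarith)
  have hHc : ∀ g i, H g i ≤ ⌈x⌉₊ := by
    intro g i
    have h7 := (hHx g i).trans hceil
    exact_mod_cast h7
  obtain ⟨S, σ, hS, hcard⟩ := hx (fun _ _ => 1) (fun g i => (H g i : ℤ)) (fun _ _ => one_ne_zero)
    (fun _ _ => by norm_num)
    (fun g i => by
      have := hHc g i
      rw [abs_of_nonneg (by positivity)]
      have h8 : ((H g i : ℕ) : ℤ) ≤ ((⌈x⌉₊ : ℕ) : ℤ) := by exact_mod_cast this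
      have h9 : (0 : ℤ) ≤ ((⌈x⌉₊ : ℕ) : ℤ) := by positivity
      linarith)
    (fun g i y hy1 _ => by
      push_cast
      have h9 : (0 : ℝ) ≤ ((⌈x⌉₊ : ℕ) : ℝ) := by positivity
      have h10 : (0 : ℝ) ≤ (H g i : ℝ) := by positivity
      linarith)
    (by
      intro u v huv
      apply hinj
      simp only [Prod.mk.injEq, true_and] at huv
      exact_mod_cast huv)
    (by
      intro p hp
      obtain ⟨r, hr⟩ := adm_all H hadm p hp
      refine ⟨-(r : ℤ), fun g i hdvd => hr g i ?_⟩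
      have h11 : (p : ℤ) ∣ (H g i : ℤ) - r := by
        have e : (1 : ℤ) * -(r : ℤ) + (H g i : ℤ) = (H g i : ℤ) - r := by ring
        rwa [e] at hdvd
      exact ((Nat.modEq_iff_dvd.2 h11)).symm)
  refine ⟨S, σ, ?_, ?_⟩
  · have h12 : ((M + 1 : ℕ) : ℝ) ≤ (S.card : ℝ) := by exact_mod_cast hS
    push_cast at h12
    exact hM2.trans (mul_le_mul_of_nonneg_left h12 h4c.le)
  · have h13 : x ^ (1 - η) ≤ ((⌈x⌉₊ : ℕ) : ℝ) ^ (1 - η / 2) := by
      rcases le_or_gt 0 (1 - η) with h14 | h14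
      · exact (Real.rpow_le_rpow (by linarith) hceil h14).trans
          (Real.rpow_le_rpow_of_exponent_le (by linarith) (by linarith))
      · rcases le_or_gt 0 (1 - η / 2) with h15 | h15
        · calc x ^ (1 - η) ≤ 1 := Real.rpow_le_one_of_one_le_of_nonpos (by linarith) h14.le
            _ ≤ ((⌈x⌉₊ : ℕ) : ℝ) ^ (1 - η / 2) := Real.one_le_rpow (by linarith) h15
        · have h16 : (x + 1) ^ (1 - η / 2) ≤ ((⌈x⌉₊ : ℕ) : ℝ) ^ (1 - η / 2) :=
            Real.rpow_le_rpow_of_nonpos (by linarith) hceil2.le h15.le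
          have h17 : (x ^ (2 : ℝ)) ^ (1 - η / 2) ≤ (x + 1) ^ (1 - η / 2) := by
            apply Real.rpow_le_rpow_of_nonpos (by linarith) _ h15.le
            rw [Real.rpow_two]
            nlinarith
          have h18 : x ^ (1 - η) ≤ (x ^ (2 : ℝ)) ^ (1 - η / 2) := by
            rw [← Real.rpow_mul (by linarith)]
            exact Real.rpow_le_rpow_of_exponent_le (by linarith) (by linarith)
          linarith
    refine h13.trans (hcard.trans ?_)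
    have h19 : ((Icc 1 ⌈x⌉₊).filter (fun n : ℕ =>
          1 / 8 * ((⌈x⌉₊ : ℕ) : ℝ) ≤ n ∧ (n : ℝ) ≤ 1 / 4 * ((⌈x⌉₊ : ℕ) : ℝ) ∧
          ∀ g ∈ S, ((1 : ℤ) * n + (H g (σ g) : ℤ)).toNat.Prime)).card
        ≤ cntS (S.image (fun g => H g (σ g))) x := by
      rw [← Set.ncard_coe_finset]
      unfold cntS
      apply Set.ncard_le_ncard _ (cntS_fin _ x)
      intro n hn
      rw [Finset.mem_coe, mem_filter] at hn
      obtain ⟨_, _, hn2, hn3⟩ := hn
      refine ⟨?_, ?_⟩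
      · intro f hf
        rw [mem_image] at hf
        obtain ⟨g, hg, rfl⟩ := hf
        have h20 := hn3 g hg
        have e : ((1 : ℤ) * n + (H g (σ g) : ℤ)).toNat = n + H g (σ g) := by
          rw [one_mul]
          exact_mod_cast Int.toNat_natCast (n + H g (σ g))
        rwa [e] at h20
      · linarith
    exact_mod_cast h19

open Classical in
/-- the tuples of distinct elements of `V` with at least `x ^ (1 - η)` simultaneous prime values -/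
noncomputable def Phi (k : ℕ) (V : Finset ℕ) (η x : ℝ) : Finset (Fin (k + 1) → ℕ) :=
  (Fintype.piFinset (fun _ : Fin (k + 1) => V)).filter (fun f => Function.Injective f ∧
    x ^ (1 - η) ≤ (cntS (univ.image f) x : ℝ))

theorem uniform_shifts : ∃ c : ℝ, 0 < c ∧ c < 1 ∧ ∀ (k : ℕ) (ε : ℝ), 0 < ε →
    ∃ z n₀ : ℕ, ∀ η : ℝ, 0 < η → ∀ᶠ x : ℝ in atTop, ∀ V : Finset ℕ,
    (∀ v ∈ V, (v : ℝ) ≤ x) →
    (∀ p : ℕ, p ≤ z → p.Prime → ∃ r : ℕ, ∀ v ∈ V, ¬ v ≡ r [MOD p]) → n₀ ≤ V.card →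
    (dens c k - ε) * (V.card : ℝ) ^ (k + 1) ≤ ((Phi k V η x).card : ℝ) := by
  classical
  obtain ⟨c, hc0, hc1, hq⟩ := lamU
  refine ⟨c, hc0, hc1, fun k ε hε => ?_⟩
  unfold LamU at hq
  choose Kf hKf1 hKf using hq
  obtain ⟨T, M, hT, hM⟩ := main_gen (lam := 4 - c) (by linarith) k (dens c k)
    (dens_le c hc0 hc1 k) (hcount c hc0 hc1 k) ε hε Kf
  obtain ⟨n₀, hn₀⟩ := hM Unit
  refine ⟨∑ T' ∈ range (M + 1), T' * Kf T', n₀, ?_⟩
  intro η hη
  have hev : ∀ᶠ x : ℝ in atTop, ∀ T' : Fin (M + 1), 1 ≤ (T' : ℕ) →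
      ∀ H : Fin (T' : ℕ) → Fin (Kf T') → ℕ,
      Function.Injective (fun z : Fin (T' : ℕ) × Fin (Kf T') => H z.1 z.2) →
      (∀ g i, (H g i : ℝ) ≤ x) →
      (∀ p : ℕ, p.Prime → p ≤ (T' : ℕ) * Kf T' → ∃ r : ℕ, ∀ g i, ¬ H g i ≡ r [MOD p]) →
      ∃ (S : Finset (Fin (T' : ℕ))) (cc : Fin (T' : ℕ) → Fin (Kf T')),
        ((T' : ℕ) : ℝ) ≤ (4 - c) * (S.card : ℝ) ∧
        x ^ (1 - η) ≤ (cntS (S.image (fun g => H g (cc g))) x : ℝ) := by
    rw [eventually_all]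
    intro T'
    by_cases h0 : 1 ≤ (T' : ℕ)
    swap
    · exact Eventually.of_forall fun x h => absurd h h0
    have h3 := hKf T' h0 η hη
    filter_upwards [h3] with x hx _
    exact hx
  filter_upwards [hev] with x hx V hVx hVadm hVn
  have key := hn₀ ℕ V (fun _ => ())
    (fun F => x ^ (1 - η) ≤ (cntS F x : ℝ)) hVn
    (fun F F' hF h => h.trans (by exact_mod_cast cntS_anti hF x)) (by
      intro T' hT'1 hT'M H hHV hHinj _
      refine hx ⟨T', by omega⟩ hT'1 H hHinj (fun g i => hVx _ (hHV g i)) ?_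
      intro p hp hpT
      obtain ⟨r, hr⟩ := hVadm p (hpT.trans
        (Finset.single_le_sum (f := fun T' => T' * Kf T') (fun _ _ => Nat.zero_le _)
            (mem_range.2 (by omega)))) hp
      exact ⟨r, fun g i => hr _ (hHV g i)⟩)
  refine key.trans (le_of_eq ?_)
  unfold Phi
  rfl

theorem cntS_image {k : ℕ} (a : Fin (k + 1) → ℕ) (x : ℝ) :
    cntS (univ.image a) x = {n : ℕ | (n : ℝ) ≤ x ∧ ∀ i, (n + a i).Prime}.ncard := by
  unfold cntS
  congr 1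
  ext n
  simp only [Set.mem_ofPred_eq, mem_image, mem_univ, true_and, forall_exists_index,
    forall_apply_eq_imp_iff]
  exact and_comm

end Pool.Agent.Q47.UKT
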